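import Mathlib

/-! Polynomial certificate for the calibrating field (k = 3): all coefficients are
nonnegative in barycentric coordinates. -/

set_option linter.unusedVariables false

namespace H92FS

/-- coefficient -/
noncomputable def a0 (d c : ℝ) : ℝ :=
    -96*d^3*c^4 - 192*d^3*c^3 - 84*d^3*c^2 + 24*d^3*c + 12*d^3 + 96*d^2*c^5 + 192*d^2*c^4 +
    72*d^2*c^3 - 93*d^2*c^2 - 90*d^2*c - 15*d^2 + 45*d*c^3 + 82*d*c^2 + 32*d*c - 4*d + 6*c^2 +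
    12*c + 6

/-- coefficient -/
noncomputable def a1 (d c : ℝ) : ℝ :=
    -24*d^2*c^4 - 48*d^2*c^3 - 20*d^2*c^2 + 8*d^2*c + 4*d^2 - (9/2)*d*c^2 - 9*d*c - (9/2)*d + c
    + 2

/-- coefficient -/
noncomputable def b0 (d c : ℝ) : ℝ :=
    -30*d^3*c^3 - 60*d^3*c^2 - 30*d^3*c + 30*d^2*c^4 + 60*d^2*c^3 + 28*d^2*c^2 - 13*d^2*c -
    17*d^2 + 9*d*c^2 + 17*d*c + 7*d

/-- coefficient -/
noncomputable def b1 (d c : ℝ) : ℝ :=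
    -6*d^2*c^3 - 12*d^2*c^2 - 6*d^2*c - 1

/-- coefficient -/
noncomputable def g0 (d c : ℝ) : ℝ :=
    -6*d^3*c^2 - 12*d^3*c - 6*d^3 + 8*d^2*c^3 + 16*d^2*c^2 + 8*d^2*c + 6*d^2 + d

/-- coefficient -/
noncomputable def g1 (d c : ℝ) : ℝ :=
    -d^2*c^2 - 2*d^2*c - d^2 + 1

/-- entry 11, x = r/sigma, d = eps/r, c = w/r -/
noncomputable def t11 (x d c : ℝ) : ℝ := a0 d c + x * a1 d c
/-- entry 12 -/
noncomputable def t12 (x d c : ℝ) : ℝ := b0 d c + x * b1 d c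
/-- entry 22 -/
noncomputable def t22 (x d c : ℝ) : ℝ := g0 d c + x * g1 d c

/-- piece -/
noncomputable def A0_0 (q t : ℝ) : ℝ :=
    5*q^7 + 564*q^6*t + 2433*q^5*t^2 + 4216*q^4*t^3 + 3639*q^3*t^4 + 1596*q^2*t^5 + 323*q*t^6 +
    24*t^7

lemma A0_0_nn {q t : ℝ} (hq : 0 ≤ q) (ht : 0 ≤ t) : 0 ≤ A0_0 q t := by
  unfold A0_0; positivity

/-- piece -/
noncomputable def A0_1 (q t : ℝ) : ℝ :=
    125*q^6 + 1627*q^5*t + 5162*q^4*t^2 + 7118*q^3*t^3 + 4777*q^2*t^4 + 1463*q*t^5 + 144*t^6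

lemma A0_1_nn {q t : ℝ} (hq : 0 ≤ q) (ht : 0 ≤ t) : 0 ≤ A0_1 q t := by
  unfold A0_1; positivity

/-- piece -/
noncomputable def A0_2 (q t : ℝ) : ℝ :=
    416*q^5 + 2807*q^4*t + 6351*q^3*t^2 + 6311*q^2*t^3 + 2717*q*t^4 + 366*t^5

lemma A0_2_nn {q t : ℝ} (hq : 0 ≤ q) (ht : 0 ≤ t) : 0 ≤ A0_2 q t := by
  unfold A0_2; positivity

/-- piece -/
noncomputable def A0_3 (q t : ℝ) : ℝ :=
    592*q^4 + 2745*q^3*t + 4296*q^2*t^2 + 2653*q*t^3 + 510*t^4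

lemma A0_3_nn {q t : ℝ} (hq : 0 ≤ q) (ht : 0 ≤ t) : 0 ≤ A0_3 q t := by
  unfold A0_3; positivity

/-- piece -/
noncomputable def A0_4 (q t : ℝ) : ℝ :=
    449*q^3 + 1459*q^2*t + 1442*q*t^2 + 420*t^3

lemma A0_4_nn {q t : ℝ} (hq : 0 ≤ q) (ht : 0 ≤ t) : 0 ≤ A0_4 q t := by
  unfold A0_4; positivity

/-- piece -/
noncomputable def A0_5 (q t : ℝ) : ℝ :=
    197*q^2 + 416*q*t + 204*t^2

lemma A0_5_nn {q t : ℝ} (hq : 0 ≤ q) (ht : 0 ≤ t) : 0 ≤ A0_5 q t := by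
  unfold A0_5; positivity

/-- piece -/
noncomputable def A0_6 (q t : ℝ) : ℝ :=
    50*q + 54*t

lemma A0_6_nn {q t : ℝ} (hq : 0 ≤ q) (ht : 0 ≤ t) : 0 ≤ A0_6 q t := by
  unfold A0_6; positivity

/-- piece -/
noncomputable def A0_7 (q t : ℝ) : ℝ :=
    6

lemma A0_7_nn {q t : ℝ} (hq : 0 ≤ q) (ht : 0 ≤ t) : 0 ≤ A0_7 q t := by
  unfold A0_7; positivity

lemma A0_nonneg {q t v : ℝ} (hq : 0 ≤ q) (ht : 0 ≤ t) (hv : 0 ≤ v) (h : v = 1 - q - t) :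
    0 ≤ a0 q (q+t) := by
  have key : a0 q (q+t) =
      v^0 * A0_0 q t + v^1 * A0_1 q t + v^2 * A0_2 q t + v^3 * A0_3 q t + v^4 * A0_4 q t + v^5 *
      A0_5 q t + v^6 * A0_6 q t + v^7 * A0_7 q t := by
    subst h
    unfold A0_0 A0_1 A0_2 A0_3 A0_4 A0_5 A0_6 A0_7 a0
    ring
  rw [key]
  have h0 := mul_nonneg (pow_nonneg hv 0) (A0_0_nn hq ht)
  have h1 := mul_nonneg (pow_nonneg hv 1) (A0_1_nn hq ht)
  have h2 := mul_nonneg (pow_nonneg hv 2) (A0_2_nn hq ht)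
  have h3 := mul_nonneg (pow_nonneg hv 3) (A0_3_nn hq ht)
  have h4 := mul_nonneg (pow_nonneg hv 4) (A0_4_nn hq ht)
  have h5 := mul_nonneg (pow_nonneg hv 5) (A0_5_nn hq ht)
  have h6 := mul_nonneg (pow_nonneg hv 6) (A0_6_nn hq ht)
  have h7 := mul_nonneg (pow_nonneg hv 7) (A0_7_nn hq ht)
  linarith

/-- piece -/
noncomputable def A2_0 (q t : ℝ) : ℝ :=
    5*q^7 + 374*q^6*t + 1649*q^5*t^2 + 2986*q^4*t^3 + 2759*q^3*t^4 + 1346*q^2*t^5 + 323*q*t^6 +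
    30*t^7

lemma A2_0_nn {q t : ℝ} (hq : 0 ≤ q) (ht : 0 ≤ t) : 0 ≤ A2_0 q t := by
  unfold A2_0; positivity

/-- piece -/
noncomputable def A2_1 (q t : ℝ) : ℝ :=
    125*q^6 + 1421*q^5*t + 4468*q^4*t^2 + 6306*q^3*t^3 + 4445*q^2*t^4 + 1489*q*t^5 + 178*t^6

lemma A2_1_nn {q t : ℝ} (hq : 0 ≤ q) (ht : 0 ≤ t) : 0 ≤ A2_1 q t := by
  unfold A2_1; positivity

/-- piece -/
noncomputable def A2_2 (q t : ℝ) : ℝ :=
    416*q^5 + 2718*q^4*t + 6108*q^3*t^2 + 6172*q^2*t^3 + 2812*q*t^4 + 446*t^5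

lemma A2_2_nn {q t : ℝ} (hq : 0 ≤ q) (ht : 0 ≤ t) : 0 ≤ A2_2 q t := by
  unfold A2_2; positivity

/-- piece -/
noncomputable def A2_3 (q t : ℝ) : ℝ :=
    592*q^4 + 2722*q^3*t + 4302*q^2*t^2 + 2782*q*t^3 + 610*t^4

lemma A2_3_nn {q t : ℝ} (hq : 0 ≤ q) (ht : 0 ≤ t) : 0 ≤ A2_3 q t := by
  unfold A2_3; positivity

/-- piece -/
noncomputable def A2_4 (q t : ℝ) : ℝ :=
    449*q^3 + 1474*q^2*t + 1519*q*t^2 + 490*t^3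

lemma A2_4_nn {q t : ℝ} (hq : 0 ≤ q) (ht : 0 ≤ t) : 0 ≤ A2_4 q t := by
  unfold A2_4; positivity

/-- piece -/
noncomputable def A2_5 (q t : ℝ) : ℝ :=
    197*q^2 + 433*q*t + 230*t^2

lemma A2_5_nn {q t : ℝ} (hq : 0 ≤ q) (ht : 0 ≤ t) : 0 ≤ A2_5 q t := by
  unfold A2_5; positivity

/-- piece -/
noncomputable def A2_6 (q t : ℝ) : ℝ :=
    50*q + 58*t

lemma A2_6_nn {q t : ℝ} (hq : 0 ≤ q) (ht : 0 ≤ t) : 0 ≤ A2_6 q t := by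
  unfold A2_6; positivity

/-- piece -/
noncomputable def A2_7 (q t : ℝ) : ℝ :=
    6

lemma A2_7_nn {q t : ℝ} (hq : 0 ≤ q) (ht : 0 ≤ t) : 0 ≤ A2_7 q t := by
  unfold A2_7; positivity

lemma A2_nonneg {q t v : ℝ} (hq : 0 ≤ q) (ht : 0 ≤ t) (hv : 0 ≤ v) (h : v = 1 - q - t) :
    0 ≤ a0 q (q+t) + 2*t*a1 q (q+t) := by
  have key : a0 q (q+t) + 2*t*a1 q (q+t) =
      v^0 * A2_0 q t + v^1 * A2_1 q t + v^2 * A2_2 q t + v^3 * A2_3 q t + v^4 * A2_4 q t + v^5 *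
      A2_5 q t + v^6 * A2_6 q t + v^7 * A2_7 q t := by
    subst h
    unfold A2_0 A2_1 A2_2 A2_3 A2_4 A2_5 A2_6 A2_7 a0 a1
    ring
  rw [key]
  have h0 := mul_nonneg (pow_nonneg hv 0) (A2_0_nn hq ht)
  have h1 := mul_nonneg (pow_nonneg hv 1) (A2_1_nn hq ht)
  have h2 := mul_nonneg (pow_nonneg hv 2) (A2_2_nn hq ht)
  have h3 := mul_nonneg (pow_nonneg hv 3) (A2_3_nn hq ht)
  have h4 := mul_nonneg (pow_nonneg hv 4) (A2_4_nn hq ht)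
  have h5 := mul_nonneg (pow_nonneg hv 5) (A2_5_nn hq ht)
  have h6 := mul_nonneg (pow_nonneg hv 6) (A2_6_nn hq ht)
  have h7 := mul_nonneg (pow_nonneg hv 7) (A2_7_nn hq ht)
  linarith

/-- piece -/
noncomputable def G0_0 (q t : ℝ) : ℝ :=
    15*q^5 + 70*q^4*t + 96*q^3*t^2 + 42*q^2*t^3 + q*t^4

lemma G0_0_nn {q t : ℝ} (hq : 0 ≤ q) (ht : 0 ≤ t) : 0 ≤ G0_0 q t := by
  unfold G0_0; positivity

/-- piece -/
noncomputable def G0_1 (q t : ℝ) : ℝ :=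
    30*q^4 + 88*q^3*t + 62*q^2*t^2 + 4*q*t^3

lemma G0_1_nn {q t : ℝ} (hq : 0 ≤ q) (ht : 0 ≤ t) : 0 ≤ G0_1 q t := by
  unfold G0_1; positivity

/-- piece -/
noncomputable def G0_2 (q t : ℝ) : ℝ :=
    26*q^3 + 38*q^2*t + 6*q*t^2

lemma G0_2_nn {q t : ℝ} (hq : 0 ≤ q) (ht : 0 ≤ t) : 0 ≤ G0_2 q t := by
  unfold G0_2; positivity

/-- piece -/
noncomputable def G0_3 (q t : ℝ) : ℝ :=
    10*q^2 + 4*q*t

lemma G0_3_nn {q t : ℝ} (hq : 0 ≤ q) (ht : 0 ≤ t) : 0 ≤ G0_3 q t := by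
  unfold G0_3; positivity

/-- piece -/
noncomputable def G0_4 (q t : ℝ) : ℝ :=
    q

lemma G0_4_nn {q t : ℝ} (hq : 0 ≤ q) (ht : 0 ≤ t) : 0 ≤ G0_4 q t := by
  unfold G0_4; positivity

lemma G0_nonneg {q t v : ℝ} (hq : 0 ≤ q) (ht : 0 ≤ t) (hv : 0 ≤ v) (h : v = 1 - q - t) :
    0 ≤ g0 q (q+t) := by
  have key : g0 q (q+t) =
      v^0 * G0_0 q t + v^1 * G0_1 q t + v^2 * G0_2 q t + v^3 * G0_3 q t + v^4 * G0_4 q t := by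
    subst h
    unfold G0_0 G0_1 G0_2 G0_3 G0_4 g0
    ring
  rw [key]
  have h0 := mul_nonneg (pow_nonneg hv 0) (G0_0_nn hq ht)
  have h1 := mul_nonneg (pow_nonneg hv 1) (G0_1_nn hq ht)
  have h2 := mul_nonneg (pow_nonneg hv 2) (G0_2_nn hq ht)
  have h3 := mul_nonneg (pow_nonneg hv 3) (G0_3_nn hq ht)
  have h4 := mul_nonneg (pow_nonneg hv 4) (G0_4_nn hq ht)
  linarith

/-- piece -/
noncomputable def G2_0 (q t : ℝ) : ℝ :=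
    15*q^5 + 64*q^4*t + 88*q^3*t^2 + 46*q^2*t^3 + 9*q*t^4 + 2*t^5

lemma G2_0_nn {q t : ℝ} (hq : 0 ≤ q) (ht : 0 ≤ t) : 0 ≤ G2_0 q t := by
  unfold G2_0; positivity

/-- piece -/
noncomputable def G2_1 (q t : ℝ) : ℝ :=
    30*q^4 + 88*q^3*t + 78*q^2*t^2 + 28*q*t^3 + 8*t^4

lemma G2_1_nn {q t : ℝ} (hq : 0 ≤ q) (ht : 0 ≤ t) : 0 ≤ G2_1 q t := by
  unfold G2_1; positivity

/-- piece -/
noncomputable def G2_2 (q t : ℝ) : ℝ :=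
    26*q^3 + 48*q^2*t + 30*q*t^2 + 12*t^3

lemma G2_2_nn {q t : ℝ} (hq : 0 ≤ q) (ht : 0 ≤ t) : 0 ≤ G2_2 q t := by
  unfold G2_2; positivity

/-- piece -/
noncomputable def G2_3 (q t : ℝ) : ℝ :=
    10*q^2 + 12*q*t + 8*t^2

lemma G2_3_nn {q t : ℝ} (hq : 0 ≤ q) (ht : 0 ≤ t) : 0 ≤ G2_3 q t := by
  unfold G2_3; positivity

/-- piece -/
noncomputable def G2_4 (q t : ℝ) : ℝ :=
    q + 2*t

lemma G2_4_nn {q t : ℝ} (hq : 0 ≤ q) (ht : 0 ≤ t) : 0 ≤ G2_4 q t := by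
  unfold G2_4; positivity

lemma G2_nonneg {q t v : ℝ} (hq : 0 ≤ q) (ht : 0 ≤ t) (hv : 0 ≤ v) (h : v = 1 - q - t) :
    0 ≤ g0 q (q+t) + 2*t*g1 q (q+t) := by
  have key : g0 q (q+t) + 2*t*g1 q (q+t) =
      v^0 * G2_0 q t + v^1 * G2_1 q t + v^2 * G2_2 q t + v^3 * G2_3 q t + v^4 * G2_4 q t := by
    subst h
    unfold G2_0 G2_1 G2_2 G2_3 G2_4 g0 g1
    ring
  rw [key]
  have h0 := mul_nonneg (pow_nonneg hv 0) (G2_0_nn hq ht)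
  have h1 := mul_nonneg (pow_nonneg hv 1) (G2_1_nn hq ht)
  have h2 := mul_nonneg (pow_nonneg hv 2) (G2_2_nn hq ht)
  have h3 := mul_nonneg (pow_nonneg hv 3) (G2_3_nn hq ht)
  have h4 := mul_nonneg (pow_nonneg hv 4) (G2_4_nn hq ht)
  linarith

/-- piece -/
noncomputable def D0_0 (q t : ℝ) : ℝ :=
    74*q^12 + 8496*q^11*t + 50810*q^10*t^2 + 130408*q^9*t^3 + 181988*q^8*t^4 + 146896*q^7*t^5 +
    67220*q^6*t^6 + 16000*q^5*t^7 + 2258*q^4*t^8 + 768*q^3*t^9 + 242*q^2*t^10 + 24*q*t^11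

lemma D0_0_nn {q t : ℝ} (hq : 0 ≤ q) (ht : 0 ≤ t) : 0 ≤ D0_0 q t := by
  unfold D0_0; positivity

/-- piece -/
noncomputable def D0_1 (q t : ℝ) : ℝ :=
    1987*q^11 + 43935*q^10*t + 209556*q^9*t^2 + 461220*q^8*t^3 + 561906*q^7*t^4 + 400842*q^6*t^5
    + 167940*q^5*t^6 + 41796*q^4*t^7 + 7875*q^3*t^8 + 1711*q^2*t^9 + 240*q*t^10

lemma D0_1_nn {q t : ℝ} (hq : 0 ≤ q) (ht : 0 ≤ t) : 0 ≤ D0_1 q t := by
  unfold D0_1; positivity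

/-- piece -/
noncomputable def D0_2 (q t : ℝ) : ℝ :=
    9647*q^10 + 115957*q^9*t + 438024*q^8*t^2 + 803929*q^7*t^3 + 818312*q^6*t^4 + 477261*q^5*t^5
    + 156908*q^4*t^6 + 30343*q^3*t^7 + 5685*q^2*t^8 + 1086*q*t^9

lemma D0_2_nn {q t : ℝ} (hq : 0 ≤ q) (ht : 0 ≤ t) : 0 ≤ D0_2 q t := by
  unfold D0_2; positivity

/-- piece -/
noncomputable def D0_3 (q t : ℝ) : ℝ :=
    22400*q^9 + 187653*q^8*t + 562512*q^7*t^2 + 830683*q^6*t^3 + 660678*q^5*t^4 + 281595*q^4*t^5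
    + 63380*q^3*t^6 + 11973*q^2*t^7 + 2934*q*t^8

lemma D0_3_nn {q t : ℝ} (hq : 0 ≤ q) (ht : 0 ≤ t) : 0 ≤ D0_3 q t := by
  unfold D0_3; positivity

/-- piece -/
noncomputable def D0_4 (q t : ℝ) : ℝ :=
    30852*q^8 + 195981*q^7*t + 460128*q^6*t^2 + 518412*q^5*t^3 + 293478*q^4*t^4 + 82695*q^3*t^5
    + 17886*q^2*t^6 + 5256*q*t^7

lemma D0_4_nn {q t : ℝ} (hq : 0 ≤ q) (ht : 0 ≤ t) : 0 ≤ D0_4 q t := by
  unfold D0_4; positivity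

/-- piece -/
noncomputable def D0_5 (q t : ℝ) : ℝ :=
    27366*q^7 + 134007*q^6*t + 237432*q^5*t^2 + 189516*q^4*t^3 + 71766*q^3*t^4 + 19593*q^2*t^5 +
    6552*q*t^6

lemma D0_5_nn {q t : ℝ} (hq : 0 ≤ q) (ht : 0 ≤ t) : 0 ≤ D0_5 q t := by
  unfold D0_5; positivity

/-- piece -/
noncomputable def D0_6 (q t : ℝ) : ℝ :=
    16128*q^6 + 59639*q^5*t + 75706*q^4*t^2 + 42017*q^3*t^3 + 15546*q^2*t^4 + 5796*q*t^5

lemma D0_6_nn {q t : ℝ} (hq : 0 ≤ q) (ht : 0 ≤ t) : 0 ≤ D0_6 q t := by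
  unfold D0_6; positivity

/-- piece -/
noncomputable def D0_7 (q t : ℝ) : ℝ :=
    6390*q^5 + 17325*q^4*t + 16056*q^3*t^2 + 8595*q^2*t^3 + 3636*q*t^4

lemma D0_7_nn {q t : ℝ} (hq : 0 ≤ q) (ht : 0 ≤ t) : 0 ≤ D0_7 q t := by
  unfold D0_7; positivity

/-- piece -/
noncomputable def D0_8 (q t : ℝ) : ℝ :=
    1750*q^4 + 3617*q^3*t + 3108*q^2*t^2 + 1584*q*t^3

lemma D0_8_nn {q t : ℝ} (hq : 0 ≤ q) (ht : 0 ≤ t) : 0 ≤ D0_8 q t := by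
  unfold D0_8; positivity

/-- piece -/
noncomputable def D0_9 (q t : ℝ) : ℝ :=
    363*q^3 + 656*q^2*t + 456*q*t^2

lemma D0_9_nn {q t : ℝ} (hq : 0 ≤ q) (ht : 0 ≤ t) : 0 ≤ D0_9 q t := by
  unfold D0_9; positivity

/-- piece -/
noncomputable def D0_10 (q t : ℝ) : ℝ :=
    61*q^2 + 78*q*t

lemma D0_10_nn {q t : ℝ} (hq : 0 ≤ q) (ht : 0 ≤ t) : 0 ≤ D0_10 q t := by
  unfold D0_10; positivity

/-- piece -/
noncomputable def D0_11 (q t : ℝ) : ℝ :=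
    6*q

lemma D0_11_nn {q t : ℝ} (hq : 0 ≤ q) (ht : 0 ≤ t) : 0 ≤ D0_11 q t := by
  unfold D0_11; positivity

lemma D0_nonneg {q t v : ℝ} (hq : 0 ≤ q) (ht : 0 ≤ t) (hv : 0 ≤ v) (h : v = 1 - q - t) :
    0 ≤ a0 q (q+t) * g0 q (q+t) - b0 q (q+t)^2 := by
  have key : a0 q (q+t) * g0 q (q+t) - b0 q (q+t)^2 =
      v^0 * D0_0 q t + v^1 * D0_1 q t + v^2 * D0_2 q t + v^3 * D0_3 q t + v^4 * D0_4 q t + v^5 *
      D0_5 q t + v^6 * D0_6 q t + v^7 * D0_7 q t + v^8 * D0_8 q t + v^9 * D0_9 q t + v^10 *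
      D0_10 q t + v^11 * D0_11 q t := by
    subst h
    unfold D0_0 D0_1 D0_10 D0_11 D0_2 D0_3 D0_4 D0_5 D0_6 D0_7 D0_8 D0_9 a0 b0 g0
    ring
  rw [key]
  have h0 := mul_nonneg (pow_nonneg hv 0) (D0_0_nn hq ht)
  have h1 := mul_nonneg (pow_nonneg hv 1) (D0_1_nn hq ht)
  have h2 := mul_nonneg (pow_nonneg hv 2) (D0_2_nn hq ht)
  have h3 := mul_nonneg (pow_nonneg hv 3) (D0_3_nn hq ht)
  have h4 := mul_nonneg (pow_nonneg hv 4) (D0_4_nn hq ht)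
  have h5 := mul_nonneg (pow_nonneg hv 5) (D0_5_nn hq ht)
  have h6 := mul_nonneg (pow_nonneg hv 6) (D0_6_nn hq ht)
  have h7 := mul_nonneg (pow_nonneg hv 7) (D0_7_nn hq ht)
  have h8 := mul_nonneg (pow_nonneg hv 8) (D0_8_nn hq ht)
  have h9 := mul_nonneg (pow_nonneg hv 9) (D0_9_nn hq ht)
  have h10 := mul_nonneg (pow_nonneg hv 10) (D0_10_nn hq ht)
  have h11 := mul_nonneg (pow_nonneg hv 11) (D0_11_nn hq ht)
  linarith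

/-- piece -/
noncomputable def D1_0 (q t : ℝ) : ℝ :=
    74*q^12 + 7106*q^11*t + 44572*q^10*t^2 + 124320*q^9*t^3 + 200092*q^8*t^4 + 209524*q^7*t^5 +
    157608*q^6*t^6 + 94256*q^5*t^7 + 46610*q^4*t^8 + 17402*q^3*t^9 + 4140*q^2*t^10 + 512*q*t^11
    + 24*t^12

lemma D1_0_nn {q t : ℝ} (hq : 0 ≤ q) (ht : 0 ≤ t) : 0 ≤ D1_0 q t := by
  unfold D1_0; positivity

/-- piece -/
noncomputable def D1_1 (q t : ℝ) : ℝ :=
    1987*q^11 + 40173*q^10*t + 199198*q^9*t^2 + 480032*q^8*t^3 + 690566*q^7*t^4 + 665810*q^6*t^5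
    + 472588*q^5*t^6 + 261688*q^4*t^7 + 109327*q^3*t^8 + 30201*q^2*t^9 + 4478*q*t^10 + 240*t^11

lemma D1_1_nn {q t : ℝ} (hq : 0 ≤ q) (ht : 0 ≤ t) : 0 ≤ D1_1 q t := by
  unfold D1_1; positivity

/-- piece -/
noncomputable def D1_2 (q t : ℝ) : ℝ :=
    9647*q^10 + (224881/2)*q^9*t + (889531/2)*q^8*t^2 + (1820859/2)*q^7*t^3 +
    (2288559/2)*q^6*t^4 + (1972321/2)*q^5*t^5 + (1262101/2)*q^4*t^6 + (605321/2)*q^3*t^7 +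
    (196839/2)*q^2*t^8 + 17557*q*t^9 + 1086*t^10

lemma D1_2_nn {q t : ℝ} (hq : 0 ≤ q) (ht : 0 ≤ t) : 0 ≤ D1_2 q t := by
  unfold D1_2; positivity

/-- piece -/
noncomputable def D1_3 (q t : ℝ) : ℝ :=
    22400*q^9 + (377125/2)*q^8*t + 604171*q^7*t^2 + (2077877/2)*q^6*t^3 + 1125407*q^5*t^4 +
    (1716219/2)*q^4*t^5 + 484253*q^3*t^6 + (376671/2)*q^2*t^7 + 40649*q*t^8 + 2934*t^9

lemma D1_3_nn {q t : ℝ} (hq : 0 ≤ q) (ht : 0 ≤ t) : 0 ≤ D1_3 q t := by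
  unfold D1_3; positivity

/-- piece -/
noncomputable def D1_4 (q t : ℝ) : ℝ :=
    30852*q^8 + (404929/2)*q^7*t + (1058181/2)*q^6*t^2 + 763128*q^5*t^3 + 720843*q^4*t^4 +
    (985053/2)*q^3*t^5 + (467325/2)*q^2*t^6 + 61585*q*t^7 + 5256*t^8

lemma D1_4_nn {q t : ℝ} (hq : 0 ≤ q) (ht : 0 ≤ t) : 0 ≤ D1_4 q t := by
  unfold D1_4; positivity

/-- piece -/
noncomputable def D1_5 (q t : ℝ) : ℝ :=
    27366*q^7 + (286949/2)*q^6*t + 307898*q^5*t^2 + 382600*q^4*t^3 + 328985*q^3*t^4 +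
    (390995/2)*q^2*t^5 + 63875*q*t^6 + 6552*t^7

lemma D1_5_nn {q t : ℝ} (hq : 0 ≤ q) (ht : 0 ≤ t) : 0 ≤ D1_5 q t := by
  unfold D1_5; positivity

/-- piece -/
noncomputable def D1_6 (q t : ℝ) : ℝ :=
    16128*q^6 + (136565/2)*q^5*t + (249609/2)*q^4*t^2 + (286785/2)*q^3*t^3 + (221899/2)*q^2*t^4
    + 46039*q*t^5 + 5796*t^6

lemma D1_6_nn {q t : ℝ} (hq : 0 ≤ q) (ht : 0 ≤ t) : 0 ≤ D1_6 q t := by
  unfold D1_6; positivity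

/-- piece -/
noncomputable def D1_7 (q t : ℝ) : ℝ :=
    6390*q^5 + (45441/2)*q^4*t + 38924*q^3*t^2 + (83477/2)*q^2*t^3 + 22877*q*t^4 + 3636*t^5

lemma D1_7_nn {q t : ℝ} (hq : 0 ≤ q) (ht : 0 ≤ t) : 0 ≤ D1_7 q t := by
  unfold D1_7; positivity

/-- piece -/
noncomputable def D1_8 (q t : ℝ) : ℝ :=
    1750*q^4 + (11741/2)*q^3*t + (19583/2)*q^2*t^2 + 7579*q*t^3 + 1584*t^4

lemma D1_8_nn {q t : ℝ} (hq : 0 ≤ q) (ht : 0 ≤ t) : 0 ≤ D1_8 q t := by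
  unfold D1_8; positivity

/-- piece -/
noncomputable def D1_9 (q t : ℝ) : ℝ :=
    363*q^3 + (2503/2)*q^2*t + 1555*q*t^2 + 456*t^3

lemma D1_9_nn {q t : ℝ} (hq : 0 ≤ q) (ht : 0 ≤ t) : 0 ≤ D1_9 q t := by
  unfold D1_9; positivity

/-- piece -/
noncomputable def D1_10 (q t : ℝ) : ℝ :=
    61*q^2 + 168*q*t + 78*t^2

lemma D1_10_nn {q t : ℝ} (hq : 0 ≤ q) (ht : 0 ≤ t) : 0 ≤ D1_10 q t := by
  unfold D1_10; positivity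

/-- piece -/
noncomputable def D1_11 (q t : ℝ) : ℝ :=
    6*q + 6*t

lemma D1_11_nn {q t : ℝ} (hq : 0 ≤ q) (ht : 0 ≤ t) : 0 ≤ D1_11 q t := by
  unfold D1_11; positivity

lemma D1_nonneg {q t v : ℝ} (hq : 0 ≤ q) (ht : 0 ≤ t) (hv : 0 ≤ v) (h : v = 1 - q - t) :
    0 ≤ (a0 q (q+t) * (g0 q (q+t) + 2*t*g1 q (q+t)) + (a0 q (q+t) + 2*t*a1 q (q+t)) * g0 q (q+t))/2 - b0 q (q+t) * (b0 q (q+t) + 2*t*b1 q (q+t)) := by
  have key : (a0 q (q+t) * (g0 q (q+t) + 2*t*g1 q (q+t)) + (a0 q (q+t) + 2*t*a1 q (q+t)) * g0 q (q+t))/2 - b0 q (q+t) * (b0 q (q+t) + 2*t*b1 q (q+t)) =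
      v^0 * D1_0 q t + v^1 * D1_1 q t + v^2 * D1_2 q t + v^3 * D1_3 q t + v^4 * D1_4 q t + v^5 *
      D1_5 q t + v^6 * D1_6 q t + v^7 * D1_7 q t + v^8 * D1_8 q t + v^9 * D1_9 q t + v^10 *
      D1_10 q t + v^11 * D1_11 q t := by
    subst h
    unfold D1_0 D1_1 D1_10 D1_11 D1_2 D1_3 D1_4 D1_5 D1_6 D1_7 D1_8 D1_9 a0 a1 b0 b1 g0 g1
    ring
  rw [key]
  have h0 := mul_nonneg (pow_nonneg hv 0) (D1_0_nn hq ht)
  have h1 := mul_nonneg (pow_nonneg hv 1) (D1_1_nn hq ht)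
  have h2 := mul_nonneg (pow_nonneg hv 2) (D1_2_nn hq ht)
  have h3 := mul_nonneg (pow_nonneg hv 3) (D1_3_nn hq ht)
  have h4 := mul_nonneg (pow_nonneg hv 4) (D1_4_nn hq ht)
  have h5 := mul_nonneg (pow_nonneg hv 5) (D1_5_nn hq ht)
  have h6 := mul_nonneg (pow_nonneg hv 6) (D1_6_nn hq ht)
  have h7 := mul_nonneg (pow_nonneg hv 7) (D1_7_nn hq ht)
  have h8 := mul_nonneg (pow_nonneg hv 8) (D1_8_nn hq ht)
  have h9 := mul_nonneg (pow_nonneg hv 9) (D1_9_nn hq ht)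
  have h10 := mul_nonneg (pow_nonneg hv 10) (D1_10_nn hq ht)
  have h11 := mul_nonneg (pow_nonneg hv 11) (D1_11_nn hq ht)
  linarith

/-- piece -/
noncomputable def D2_0 (q t : ℝ) : ℝ :=
    74*q^12 + 5716*q^11*t + 36974*q^10*t^2 + 109056*q^9*t^3 + 190972*q^8*t^4 + 225304*q^7*t^5 +
    196124*q^6*t^6 + 134000*q^5*t^7 + 71906*q^4*t^8 + 28212*q^3*t^9 + 7190*q^2*t^10 +
    1008*q*t^11 + 56*t^12

lemma D2_0_nn {q t : ℝ} (hq : 0 ≤ q) (ht : 0 ≤ t) : 0 ≤ D2_0 q t := by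
  unfold D2_0; positivity

/-- piece -/
noncomputable def D2_1 (q t : ℝ) : ℝ :=
    1987*q^11 + 36411*q^10*t + 184276*q^9*t^2 + 470152*q^8*t^3 + 740010*q^7*t^4 + 805066*q^6*t^5
    + 652252*q^5*t^6 + 403156*q^4*t^7 + 181867*q^3*t^8 + 53875*q^2*t^9 + 8824*q*t^10 + 556*t^11

lemma D2_1_nn {q t : ℝ} (hq : 0 ≤ q) (ht : 0 ≤ t) : 0 ≤ D2_1 q t := by
  unfold D2_1; positivity

/-- piece -/
noncomputable def D2_2 (q t : ℝ) : ℝ :=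
    9647*q^10 + 108924*q^9*t + 443577*q^8*t^2 + 970572*q^7*t^3 + 1353529*q^6*t^4 +
    1332430*q^5*t^5 + 972567*q^4*t^6 + 514864*q^3*t^7 + 179560*q^2*t^8 + 34586*q*t^9 + 2496*t^10

lemma D2_2_nn {q t : ℝ} (hq : 0 ≤ q) (ht : 0 ≤ t) : 0 ≤ D2_2 q t := by
  unfold D2_2; positivity

/-- piece -/
noncomputable def D2_3 (q t : ℝ) : ℝ :=
    22400*q^9 + 189472*q^8*t + 636676*q^7*t^2 + 1199026*q^6*t^3 + 1485502*q^5*t^4 +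
    1317296*q^4*t^5 + 837392*q^3*t^6 + 349410*q^2*t^7 + 79918*q*t^8 + 6684*t^9

lemma D2_3_nn {q t : ℝ} (hq : 0 ≤ q) (ht : 0 ≤ t) : 0 ≤ D2_3 q t := by
  unfold D2_3; positivity

/-- piece -/
noncomputable def D2_4 (q t : ℝ) : ℝ :=
    30852*q^8 + 208948*q^7*t + 590701*q^6*t^2 + 974792*q^5*t^3 + 1091074*q^4*t^4 +
    857796*q^3*t^5 + 437613*q^2*t^6 + 120560*q*t^7 + 11856*t^8

lemma D2_4_nn {q t : ℝ} (hq : 0 ≤ q) (ht : 0 ≤ t) : 0 ≤ D2_4 q t := by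
  unfold D2_4; positivity

/-- piece -/
noncomputable def D2_5 (q t : ℝ) : ℝ :=
    27366*q^7 + 152942*q^6*t + 374268*q^5*t^2 + 561160*q^4*t^3 + 569158*q^3*t^4 + 366170*q^2*t^5
    + 124096*q*t^6 + 14616*t^7

lemma D2_5_nn {q t : ℝ} (hq : 0 ≤ q) (ht : 0 ≤ t) : 0 ≤ D2_5 q t := by
  unfold D2_5; positivity

/-- piece -/
noncomputable def D2_6 (q t : ℝ) : ℝ :=
    16128*q^6 + 76926*q^5*t + 172395*q^4*t^2 + 241292*q^3*t^3 + 205251*q^2*t^4 + 88340*q*t^5 +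
    12768*t^6

lemma D2_6_nn {q t : ℝ} (hq : 0 ≤ q) (ht : 0 ≤ t) : 0 ≤ D2_6 q t := by
  unfold D2_6; positivity

/-- piece -/
noncomputable def D2_7 (q t : ℝ) : ℝ :=
    6390*q^5 + 28116*q^4*t + 61508*q^3*t^2 + 74874*q^2*t^3 + 43036*q*t^4 + 7896*t^5

lemma D2_7_nn {q t : ℝ} (hq : 0 ≤ q) (ht : 0 ≤ t) : 0 ≤ D2_7 q t := by
  unfold D2_7; positivity

/-- piece -/
noncomputable def D2_8 (q t : ℝ) : ℝ :=
    1750*q^4 + 8124*q^3*t + 16501*q^2*t^2 + 13808*q*t^3 + 3384*t^4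

lemma D2_8_nn {q t : ℝ} (hq : 0 ≤ q) (ht : 0 ≤ t) : 0 ≤ D2_8 q t := by
  unfold D2_8; positivity

/-- piece -/
noncomputable def D2_9 (q t : ℝ) : ℝ :=
    363*q^3 + 1847*q^2*t + 2680*q*t^2 + 956*t^3

lemma D2_9_nn {q t : ℝ} (hq : 0 ≤ q) (ht : 0 ≤ t) : 0 ≤ D2_9 q t := by
  unfold D2_9; positivity

/-- piece -/
noncomputable def D2_10 (q t : ℝ) : ℝ :=
    61*q^2 + 258*q*t + 160*t^2

lemma D2_10_nn {q t : ℝ} (hq : 0 ≤ q) (ht : 0 ≤ t) : 0 ≤ D2_10 q t := by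
  unfold D2_10; positivity

/-- piece -/
noncomputable def D2_11 (q t : ℝ) : ℝ :=
    6*q + 12*t

lemma D2_11_nn {q t : ℝ} (hq : 0 ≤ q) (ht : 0 ≤ t) : 0 ≤ D2_11 q t := by
  unfold D2_11; positivity

lemma D2_nonneg {q t v : ℝ} (hq : 0 ≤ q) (ht : 0 ≤ t) (hv : 0 ≤ v) (h : v = 1 - q - t) :
    0 ≤ (a0 q (q+t) + 2*t*a1 q (q+t)) * (g0 q (q+t) + 2*t*g1 q (q+t)) - (b0 q (q+t) + 2*t*b1 q (q+t))^2 := by
  have key : (a0 q (q+t) + 2*t*a1 q (q+t)) * (g0 q (q+t) + 2*t*g1 q (q+t)) - (b0 q (q+t) + 2*t*b1 q (q+t))^2 =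
      v^0 * D2_0 q t + v^1 * D2_1 q t + v^2 * D2_2 q t + v^3 * D2_3 q t + v^4 * D2_4 q t + v^5 *
      D2_5 q t + v^6 * D2_6 q t + v^7 * D2_7 q t + v^8 * D2_8 q t + v^9 * D2_9 q t + v^10 *
      D2_10 q t + v^11 * D2_11 q t := by
    subst h
    unfold D2_0 D2_1 D2_10 D2_11 D2_2 D2_3 D2_4 D2_5 D2_6 D2_7 D2_8 D2_9 a0 a1 b0 b1 g0 g1
    ring
  rw [key]
  have h0 := mul_nonneg (pow_nonneg hv 0) (D2_0_nn hq ht)
  have h1 := mul_nonneg (pow_nonneg hv 1) (D2_1_nn hq ht)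
  have h2 := mul_nonneg (pow_nonneg hv 2) (D2_2_nn hq ht)
  have h3 := mul_nonneg (pow_nonneg hv 3) (D2_3_nn hq ht)
  have h4 := mul_nonneg (pow_nonneg hv 4) (D2_4_nn hq ht)
  have h5 := mul_nonneg (pow_nonneg hv 5) (D2_5_nn hq ht)
  have h6 := mul_nonneg (pow_nonneg hv 6) (D2_6_nn hq ht)
  have h7 := mul_nonneg (pow_nonneg hv 7) (D2_7_nn hq ht)
  have h8 := mul_nonneg (pow_nonneg hv 8) (D2_8_nn hq ht)
  have h9 := mul_nonneg (pow_nonneg hv 9) (D2_9_nn hq ht)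
  have h10 := mul_nonneg (pow_nonneg hv 10) (D2_10_nn hq ht)
  have h11 := mul_nonneg (pow_nonneg hv 11) (D2_11_nn hq ht)
  linarith


theorem cert {x d c : ℝ} (hx : 0 ≤ x) (hd : 0 ≤ d) (h1 : x / 2 + d ≤ c) (h2 : c ≤ 1) :
    0 ≤ t11 x d c ∧ 0 ≤ t22 x d c ∧ t12 x d c ^ 2 ≤ t11 x d c * t22 x d c := by
  obtain ⟨t, ht⟩ : ∃ t, t = c - d := ⟨_, rfl⟩
  have htn : 0 ≤ t := by rw [ht]; linarith
  have hc : c = d + t := by rw [ht]; ring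
  subst hc
  have hv : 0 ≤ 1 - d - t := by linarith
  have hA0 := A0_nonneg hd htn hv rfl
  have hA2 := A2_nonneg hd htn hv rfl
  have hG0 := G0_nonneg hd htn hv rfl
  have hG2 := G2_nonneg hd htn hv rfl
  have hD0 := D0_nonneg hd htn hv rfl
  have hD1 := D1_nonneg hd htn hv rfl
  have hD2 := D2_nonneg hd htn hv rfl
  rcases htn.eq_or_lt with h0 | hpos
  · have hx0 : x = 0 := by linarith
    subst hx0
    refine ⟨?_, ?_, ?_⟩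
    · simpa [t11] using hA0
    · simpa [t22] using hG0
    · have := hD0
      simp only [t11, t12, t22, zero_mul, add_zero]
      linarith
  · obtain ⟨p, hp⟩ : ∃ p, p = x / 2 := ⟨_, rfl⟩
    have hx2 : x = 2 * p := by rw [hp]; ring
    have hpn : 0 ≤ p := by rw [hp]; linarith
    have hun : 0 ≤ t - p := by rw [hp]; linarith
    subst hx2
    have e1 : t * t11 (2*p) d (d+t) = (t-p) * a0 d (d+t) + p * (a0 d (d+t) + 2*t*a1 d (d+t)) := by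
      unfold t11; ring
    have e2 : t * t22 (2*p) d (d+t) = (t-p) * g0 d (d+t) + p * (g0 d (d+t) + 2*t*g1 d (d+t)) := by
      unfold t22; ring
    have e3 : t^2 * (t11 (2*p) d (d+t) * t22 (2*p) d (d+t) - t12 (2*p) d (d+t)^2) =
        (t-p)^2 * (a0 d (d+t) * g0 d (d+t) - b0 d (d+t)^2)
        + 2*(p*(t-p)) * ((a0 d (d+t) * (g0 d (d+t) + 2*t*g1 d (d+t)) + (a0 d (d+t) + 2*t*a1 d (d+t)) * g0 d (d+t))/2 - b0 d (d+t) * (b0 d (d+t) + 2*t*b1 d (d+t)))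
        + p^2 * ((a0 d (d+t) + 2*t*a1 d (d+t)) * (g0 d (d+t) + 2*t*g1 d (d+t)) - (b0 d (d+t) + 2*t*b1 d (d+t))^2) := by
      unfold t11 t12 t22; ring
    have f1 : 0 ≤ t * t11 (2*p) d (d+t) := by
      rw [e1]; exact add_nonneg (mul_nonneg hun hA0) (mul_nonneg hpn hA2)
    have f2 : 0 ≤ t * t22 (2*p) d (d+t) := by
      rw [e2]; exact add_nonneg (mul_nonneg hun hG0) (mul_nonneg hpn hG2)
    have f3 : 0 ≤ t^2 * (t11 (2*p) d (d+t) * t22 (2*p) d (d+t) - t12 (2*p) d (d+t)^2) := by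
      rw [e3]
      have k1 := mul_nonneg (sq_nonneg (t-p)) hD0
      have k2 := mul_nonneg (mul_nonneg (by norm_num : (0:ℝ) ≤ 2) (mul_nonneg hpn hun)) hD1
      have k3 := mul_nonneg (sq_nonneg p) hD2
      exact add_nonneg (add_nonneg k1 k2) k3
    refine ⟨nonneg_of_mul_nonneg_right (by linarith) hpos, nonneg_of_mul_nonneg_right (by linarith) hpos, ?_⟩
    have := nonneg_of_mul_nonneg_right f3 (pow_pos hpos 2)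
    linarith

end H92FS
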