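import Mathlib

/-! Free boundary minimal submanifolds of the unit ball, in the weak form given by the
first variation formula. -/

open scoped InnerProductSpace ContDiff
open MeasureTheory

namespace H92FS

/-- `k`-dimensional free boundary minimal submanifold of the closed unit ball of `ℝⁿ`, in weak
form. `S` is the (parameter) manifold with its `k`-dimensional volume measure `vol`, `B` its
boundary with the `(k-1)`-dimensional volume measure `bvol`; `u : S → ℝⁿ` and `b : B → ℝⁿ` are the
immersion and its restriction to the boundary, `T p` is an orthonormal basis of the tangent space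
at `p`. `first_variation` is the first variation formula of a submanifold with zero mean curvature
whose outward unit conormal at the boundary point `b q` is the position vector `b q`:
`∫_S div_S X = ∫_B ⟨X, x⟩` for all smooth compactly supported vector fields `X` on `ℝⁿ`. -/
structure FreeBoundaryMinimal (k n : ℕ) {S B : Type*} [MeasurableSpace S] [MeasurableSpace B]
    (vol : Measure S) (bvol : Measure B) (u : S → EuclideanSpace ℝ (Fin n))
    (T : S → Fin k → EuclideanSpace ℝ (Fin n)) (b : B → EuclideanSpace ℝ (Fin n)) : Prop where
  finite_vol : vol Set.univ < ⊤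
  finite_bvol : bvol Set.univ < ⊤
  measurable_u : Measurable u
  measurable_T : Measurable T
  measurable_b : Measurable b
  mem_ball : ∀ p, ‖u p‖ ≤ 1
  mem_sphere : ∀ q, ‖b q‖ = 1
  frame : ∀ p, Orthonormal ℝ (T p)
  first_variation : ∀ X : EuclideanSpace ℝ (Fin n) → EuclideanSpace ℝ (Fin n),
    ContDiff ℝ ∞ X → HasCompactSupport X →
    ∫ p, ∑ j, ⟪fderiv ℝ X (u p) (T p j), T p j⟫_ℝ ∂vol = ∫ q, ⟪X (b q), b q⟫_ℝ ∂bvol

end H92FS
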