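import Mathlib
import Pool.Agent.Helper92.FSCert

/-! The calibrating vector field (k = 3): definition, derivative, trace inequality, flux. -/

open scoped RealInnerProductSpace ContDiff
open MeasureTheory

namespace H92FS

/-- coefficient of `x - σ e` in the field, as a polynomial in `u = 1/r`, `s = 1/(r+w)`, `w` -/
noncomputable def Af (σ D ε u s w : ℝ) : ℝ :=
  -(s*u + 2*σ*u^3 + D*s*u^3*(1+2*w*u) + 3/2*D*s*u^3*(3*w^2*u^2+w*u-1) - 3/2*ε*u^3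
    - 3/2*ε*D*s*u^4*(1+3*w*u) + ε*D*u^5*(6*w^3*u^3-2*w*u) - ε^2*u^4*(4*w^2*u^2-1)
    - ε^2*D*u^6*(6*w^2*u^2-1))

/-- coefficient of `e` in the field -/
noncomputable def Bf (D ε u s w : ℝ) : ℝ :=
  s - D*u^2*s - 3/2*D*u^3*s*w + 3*ε*D*u^3*s - 2*ε*D*u^6*w^2 + ε^2*u^4*w + 3*ε^2*D*u^6*w

/-- partial derivative -/
noncomputable def Au (σ D ε u s w : ℝ) : ℝ :=
  -(s + 3*(2*σ-3/2*ε)*u^2 - 3/2*D*s*u^2 + 14*D*s*w*u^3 + 45/2*D*s*w^2*u^4 - 6*ε*D*s*u^3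
    - 45/2*ε*D*s*w*u^4 + 48*ε*D*w^3*u^7 - 12*ε*D*w*u^5 - 24*ε^2*w^2*u^5 + 4*ε^2*u^3
    - 48*ε^2*D*w^2*u^7 + 6*ε^2*D*u^5)
/-- partial derivative -/
noncomputable def As (D ε u w : ℝ) : ℝ :=
  -(u - 1/2*D*u^3 + 7/2*D*w*u^4 + 9/2*D*w^2*u^5 - 3/2*ε*D*u^4 - 9/2*ε*D*w*u^5)
/-- partial derivative -/
noncomputable def Aw (D ε u s w : ℝ) : ℝ :=
  -(7/2*D*s*u^4 + 9*D*s*w*u^5 - 9/2*ε*D*s*u^5 + 18*ε*D*w^2*u^8 - 2*ε*D*u^6 - 8*ε^2*w*u^6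
    - 12*ε^2*D*w*u^8)
/-- partial derivative -/
noncomputable def Bu (D ε u s w : ℝ) : ℝ :=
  -2*D*u*s - 9/2*D*u^2*s*w + 9*ε*D*u^2*s - 12*ε*D*u^5*w^2 + 4*ε^2*u^3*w + 18*ε^2*D*u^5*w
/-- partial derivative -/
noncomputable def Bs (D ε u w : ℝ) : ℝ :=
  1 - D*u^2 - 3/2*D*u^3*w + 3*ε*D*u^3
/-- partial derivative -/
noncomputable def Bw (D ε u s w : ℝ) : ℝ :=
  -3/2*D*u^3*s - 4*ε*D*u^6*w + ε^2*u^4 + 3*ε^2*D*u^6

lemma mono_deriv {u s w : ℝ → ℝ} {u' s' w' t : ℝ} (hu : HasDerivAt u u' t)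
    (hs : HasDerivAt s s' t) (hw : HasDerivAt w w' t) (k : ℝ) (a b c : ℕ) :
    HasDerivAt (fun t => k * (s t ^ a * u t ^ b * w t ^ c))
      (k * ((a * s t ^ (a-1) * s') * u t ^ b * w t ^ c + s t ^ a * (b * u t ^ (b-1) * u') * w t ^ c
        + s t ^ a * u t ^ b * (c * w t ^ (c-1) * w'))) t := by
  have h := (((hs.pow a).mul (hu.pow b)).mul (hw.pow c)).const_mul k
  refine HasDerivAt.congr_deriv (f := fun t => k * (s t ^ a * u t ^ b * w t ^ c)) h ?_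
  simp only [Pi.mul_apply, Pi.pow_apply]
  ring

lemma Af_deriv {u s w : ℝ → ℝ} {u' s' w' t : ℝ} (σ D ε : ℝ) (hu : HasDerivAt u u' t)
    (hs : HasDerivAt s s' t) (hw : HasDerivAt w w' t) :
    HasDerivAt (fun t => Af σ D ε (u t) (s t) (w t))
      (Au σ D ε (u t) (s t) (w t) * u' + As D ε (u t) (w t) * s' + Aw D ε (u t) (s t) (w t) * w') t := by
  have m := @mono_deriv u s w u' s' w' t hu hs hw
  have h := ((((((((((((m (-1) 1 1 0).add (m (-(2*σ-3/2*ε)) 0 3 0)).add (m (1/2*D) 1 3 0)).add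
    (m (-(7/2*D)) 1 4 1)).add (m (-(9/2*D)) 1 5 2)).add (m (3/2*ε*D) 1 4 0)).add
    (m (9/2*ε*D) 1 5 1)).add (m (-(6*ε*D)) 0 8 3)).add (m (2*ε*D) 0 6 1)).add
    (m (4*ε^2) 0 6 2)).add (m (-ε^2) 0 4 0)).add (m (6*ε^2*D) 0 8 2)).add (m (-(ε^2*D)) 0 6 0)
  refine (h.congr_of_eventuallyEq (Filter.Eventually.of_forall fun x => ?_)).congr_deriv ?_
  · simp only [Af, Pi.add_apply]; ring
  · simp only [Au, As, Aw]; push_cast; ring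

lemma Bf_deriv {u s w : ℝ → ℝ} {u' s' w' t : ℝ} (D ε : ℝ) (hu : HasDerivAt u u' t)
    (hs : HasDerivAt s s' t) (hw : HasDerivAt w w' t) :
    HasDerivAt (fun t => Bf D ε (u t) (s t) (w t))
      (Bu D ε (u t) (s t) (w t) * u' + Bs D ε (u t) (w t) * s' + Bw D ε (u t) (s t) (w t) * w') t := by
  have m := @mono_deriv u s w u' s' w' t hu hs hw
  have h := ((((((m 1 1 0 0).add (m (-D) 1 2 0)).add (m (-(3/2*D)) 1 3 1)).add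
    (m (3*ε*D) 1 3 0)).add (m (-(2*ε*D)) 0 6 2)).add (m (ε^2) 0 4 1)).add (m (3*ε^2*D) 0 6 1)
  refine (h.congr_of_eventuallyEq (Filter.Eventually.of_forall fun x => ?_)).congr_deriv ?_
  · simp only [Bf, Pi.add_apply]; ring
  · simp only [Bu, Bs, Bw]; push_cast; ring

/-- the entries of the form `M` -/
noncomputable def M11 (σ D ε u s w : ℝ) : ℝ := -u^3 * Au σ D ε u s w - u*s^2 * As D ε u w
/-- entry -/
noncomputable def M22 (D ε u s w : ℝ) : ℝ := -Bw D ε u s w + s^2 * Bs D ε u w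
/-- entry -/
noncomputable def M12 (D ε u s w : ℝ) : ℝ :=
  (-(Aw D ε u s w - s^2 * As D ε u w) + u * (-u^2 * Bu D ε u s w - s^2 * Bs D ε u w)) / 2

lemma L_id {σ D ε r w : ℝ} (hr : 0 < r) (hw : 0 < w) (hD : D = 2*σ*ε) :
    3 * Af σ D ε r⁻¹ (r+w)⁻¹ w + M11 σ D ε r⁻¹ (r+w)⁻¹ w * r^2
      - 2 * M12 D ε r⁻¹ (r+w)⁻¹ w * w + M22 D ε r⁻¹ (r+w)⁻¹ w = 0 := by
  have hrw : r + w ≠ 0 := by positivity
  have hr' : r ≠ 0 := hr.ne'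
  subst hD
  simp only [Af, M11, M12, M22, Au, As, Aw, Bu, Bs, Bw]
  field_simp
  ring

lemma M11_id {σ D ε r w : ℝ} (hσ : 0 < σ) (hr : 0 < r) (hw : 0 < w) (hD : D = 2*σ*ε) :
    M11 σ D ε r⁻¹ (r+w)⁻¹ w * (r^3 * (r+w)^2) = σ * t11 (r/σ) (ε/r) (w/r) := by
  have hrw : r + w ≠ 0 := by positivity
  have hr' : r ≠ 0 := hr.ne'
  have hσ' : σ ≠ 0 := hσ.ne'
  subst hD
  simp only [M11, Au, As, t11, a0, a1]
  field_simp
  ring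

lemma M12_id {σ D ε r w : ℝ} (hσ : 0 < σ) (hr : 0 < r) (hw : 0 < w) (hD : D = 2*σ*ε) :
    M12 D ε r⁻¹ (r+w)⁻¹ w * (r^2 * (r+w)^2) = σ * t12 (r/σ) (ε/r) (w/r) := by
  have hrw : r + w ≠ 0 := by positivity
  have hr' : r ≠ 0 := hr.ne'
  have hσ' : σ ≠ 0 := hσ.ne'
  subst hD
  simp only [M12, As, Aw, Bu, Bs, t12, b0, b1]
  field_simp
  ring

lemma M22_id {σ D ε r w : ℝ} (hσ : 0 < σ) (hr : 0 < r) (hw : 0 < w) (hD : D = 2*σ*ε) :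
    M22 D ε r⁻¹ (r+w)⁻¹ w * (r * (r+w)^2) = σ * t22 (r/σ) (ε/r) (w/r) := by
  have hrw : r + w ≠ 0 := by positivity
  have hr' : r ≠ 0 := hr.ne'
  have hσ' : σ ≠ 0 := hσ.ne'
  subst hD
  simp only [M22, Bw, Bs, t22, g0, g1]
  field_simp
  ring

/-- the form `M` is positive semidefinite -/
lemma M_psd {σ D ε r w : ℝ} (hσ : 1 < σ) (hr : 0 < r) (hw : 0 < w) (hD : D = 2*σ*ε)
    (hε : 0 < ε) (hwr : w ≤ r) (hω : r^2 + D ≤ 2*σ*w) :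
    0 ≤ M11 σ D ε r⁻¹ (r+w)⁻¹ w ∧ 0 ≤ M22 D ε r⁻¹ (r+w)⁻¹ w ∧
      M12 D ε r⁻¹ (r+w)⁻¹ w ^ 2 ≤ M11 σ D ε r⁻¹ (r+w)⁻¹ w * M22 D ε r⁻¹ (r+w)⁻¹ w := by
  have hσ0 : 0 < σ := by linarith
  have hx : 0 ≤ r/σ := by positivity
  have hd : 0 ≤ ε/r := by positivity
  have h1 : r/σ/2 + ε/r ≤ w/r := by
    rw [div_div, div_add_div _ _ (by positivity) hr.ne', div_le_div_iff₀ (by positivity) hr]
    have : r * r + σ * 2 * ε ≤ w * (σ*2) := by nlinarith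
    nlinarith
  have h2 : w/r ≤ 1 := by rw [div_le_one hr]; exact hwr
  obtain ⟨c1, c2, c3⟩ := cert hx hd h1 h2
  have i1 := M11_id hσ0 hr hw hD
  have i2 := M12_id hσ0 hr hw hD
  have i3 := M22_id hσ0 hr hw hD
  have p1 : 0 < r^3 * (r+w)^2 := by positivity
  have p2 : 0 < r^2 * (r+w)^2 := by positivity
  have p3 : 0 < r * (r+w)^2 := by positivity
  refine ⟨?_, ?_, ?_⟩
  · exact nonneg_of_mul_nonneg_left (by rw [i1]; positivity) p1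
  · exact nonneg_of_mul_nonneg_left (by rw [i3]; positivity) p3
  · have key : (M12 D ε r⁻¹ (r+w)⁻¹ w * (r^2 * (r+w)^2))^2 ≤
        (M11 σ D ε r⁻¹ (r+w)⁻¹ w * (r^3 * (r+w)^2)) * (M22 D ε r⁻¹ (r+w)⁻¹ w * (r * (r+w)^2)) := by
      rw [i1, i2, i3]
      have := mul_le_mul_of_nonneg_left c3 (sq_nonneg σ)
      nlinarith [this]
    have p4 : 0 < (r^2 * (r+w)^2)^2 := by positivity
    have e : (M11 σ D ε r⁻¹ (r+w)⁻¹ w * (r^3 * (r+w)^2)) * (M22 D ε r⁻¹ (r+w)⁻¹ w * (r * (r+w)^2))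
        = (M11 σ D ε r⁻¹ (r+w)⁻¹ w * M22 D ε r⁻¹ (r+w)⁻¹ w) * (r^2 * (r+w)^2)^2 := by ring
    rw [e, mul_pow] at key
    exact le_of_mul_le_mul_right key p4

/-- boundary flux -/
lemma flux_id {σ D ε r w : ℝ} (hσ : 1 < σ) (hr : 0 < r) (hw : 0 < w) (hD : D = σ^2 - 1)
    (hε : ε = D/(2*σ)) (hwe : 2*σ*w = r^2 + D) :
    Af σ D ε r⁻¹ (r+w)⁻¹ w * ((r^2 - D)/2) + Bf D ε r⁻¹ (r+w)⁻¹ w * (σ - w) = D^2/r^4 - 1 := by
  have hσ0 : σ ≠ 0 := by positivity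
  have hr' : r ≠ 0 := hr.ne'
  have hw2 : w = (r^2 + D)/(2*σ) := by field_simp; linarith
  have hrw : r + w ≠ 0 := by positivity
  have hrw2 : 2*σ*r + (r^2 + (σ^2-1)) ≠ 0 := by
    have : 2*σ*r + (r^2 + (σ^2-1)) = 2*σ*(r+w) := by rw [hw2, hD]; field_simp
    rw [this]; positivity
  have hs : (r+w)⁻¹ = 2*σ/(2*σ*r + (r^2 + (σ^2-1))) := by
    rw [hw2, hD]; field_simp
  rw [hs, hw2, hε, hD]
  simp only [Af, Bf]
  field_simp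
  ring

end H92FS
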