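import Mathlib
import Pool.Agent.Helper92.FSField

/-! The vector field and its trace inequality. -/

open scoped InnerProductSpace ContDiff
open MeasureTheory

namespace H92FS

variable {E : Type*} [NormedAddCommGroup E] [InnerProductSpace ℝ E]

/-- distance to the pole `σ e` -/
noncomputable def rF (σ : ℝ) (e x : E) : ℝ := ‖x - σ • e‖
/-- height below the pole -/
noncomputable def wF (σ : ℝ) (e x : E) : ℝ := σ - ⟪e, x⟫_ℝ

/-- the calibrating field -/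
noncomputable def V (σ : ℝ) (e x : E) : E :=
  Af σ (σ^2-1) ((σ^2-1)/(2*σ)) (rF σ e x)⁻¹ (rF σ e x + wF σ e x)⁻¹ (wF σ e x) • (x - σ • e)
  + Bf (σ^2-1) ((σ^2-1)/(2*σ)) (rF σ e x)⁻¹ (rF σ e x + wF σ e x)⁻¹ (wF σ e x) • e

lemma wF_pos {σ : ℝ} {e x : E} (he : ‖e‖ = 1) (hx : ‖x‖ < σ) : 0 < wF σ e x := by
  have h := real_inner_le_norm e x
  rw [he, one_mul] at h
  unfold wF; linarith

lemma wF_le_rF {σ : ℝ} {e x : E} (he : ‖e‖ = 1) : wF σ e x ≤ rF σ e x := by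
  have h := real_inner_le_norm e (σ • e - x)
  rw [he, one_mul, inner_sub_right, inner_smul_right, real_inner_self_eq_norm_sq, he,
    norm_sub_rev] at h
  unfold wF rF; linarith

lemma rF_pos {σ : ℝ} {e x : E} (he : ‖e‖ = 1) (hx : ‖x‖ < σ) : 0 < rF σ e x :=
  lt_of_lt_of_le (wF_pos he hx) (wF_le_rF he)

lemma rF_sq {σ : ℝ} {e x : E} (he : ‖e‖ = 1) :
    rF σ e x ^ 2 = ‖x‖^2 - 2*σ*⟪e, x⟫_ℝ + σ^2 := by
  unfold rF
  rw [norm_sub_sq_real, inner_smul_right, norm_smul, he, real_inner_comm, Real.norm_eq_abs,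
    mul_one, sq_abs]
  ring

lemma V_contDiffAt {σ : ℝ} {e x : E} (he : ‖e‖ = 1) (hx : ‖x‖ < σ) :
    ContDiffAt ℝ ∞ (V σ e) x := by
  have hr := rF_pos he hx
  have hw := wF_pos he hx
  have hne : x - σ • e ≠ 0 := by
    intro h; unfold rF at hr; rw [h, norm_zero] at hr; exact lt_irrefl _ hr
  have c1 : ContDiffAt ℝ ∞ (fun x : E => rF σ e x) x := by
    unfold rF
    exact ContDiffAt.norm ℝ (contDiffAt_id.sub contDiffAt_const) hne
  have c2 : ContDiffAt ℝ ∞ (fun x : E => wF σ e x) x := by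
    unfold wF
    exact contDiffAt_const.sub (contDiffAt_const.inner ℝ contDiffAt_id)
  have c3 : ContDiffAt ℝ ∞ (fun x : E => (rF σ e x)⁻¹) x := c1.inv hr.ne'
  have c4 : ContDiffAt ℝ ∞ (fun x : E => (rF σ e x + wF σ e x)⁻¹) x :=
    (c1.add c2).inv (by positivity)
  unfold V Af Bf
  fun_prop

lemma rF_line {σ : ℝ} {e x h : E} (he : ‖e‖ = 1) (hx : ‖x‖ < σ) :
    HasDerivAt (fun t : ℝ => rF σ e (x + t • h)) (⟪x - σ • e, h⟫_ℝ / rF σ e x) 0 := by
  have hr := rF_pos he hx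
  have h0 : HasDerivAt (fun t : ℝ => x + t • h - σ • e) h 0 := by
    have := ((hasDerivAt_id (0:ℝ)).smul_const h).const_add x
    simpa using this.sub_const (σ • e)
  have h1 := h0.norm_sq
  have h2 := h1.sqrt (by
    simp only [zero_smul, add_zero]
    unfold rF at hr
    positivity)
  refine (h2.congr_of_eventuallyEq (Filter.Eventually.of_forall fun t => ?_)).congr_deriv ?_
  · simp only [rF]
    rw [Real.sqrt_sq (norm_nonneg _)]
  · simp only [zero_smul, add_zero]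
    rw [Real.sqrt_sq (norm_nonneg _)]
    change 2 * ⟪x - σ • e, h⟫_ℝ / (2 * rF σ e x) = _
    rw [mul_div_mul_left _ _ (by norm_num)]

lemma wF_line {σ : ℝ} {e x h : E} :
    HasDerivAt (fun t : ℝ => wF σ e (x + t • h)) (-⟪e, h⟫_ℝ) 0 := by
  have h1 : (fun t : ℝ => wF σ e (x + t • h)) = fun t => σ - ⟪e, x⟫_ℝ - t * ⟪e, h⟫_ℝ := by
    funext t; unfold wF; rw [inner_add_right, inner_smul_right]; ring
  rw [h1]
  have := ((hasDerivAt_id (0:ℝ)).mul_const ⟪e, h⟫_ℝ).const_sub (σ - ⟪e, x⟫_ℝ)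
  simpa using this

/-- the quadratic form of the derivative -/
lemma inner_fderiv {σ : ℝ} {e x : E} (he : ‖e‖ = 1) (hx : ‖x‖ < σ) (h : E) :
    ⟪fderiv ℝ (V σ e) x h, h⟫_ℝ =
      Af σ (σ^2-1) ((σ^2-1)/(2*σ)) (rF σ e x)⁻¹ (rF σ e x + wF σ e x)⁻¹ (wF σ e x) * ‖h‖^2
      + M11 σ (σ^2-1) ((σ^2-1)/(2*σ)) (rF σ e x)⁻¹ (rF σ e x + wF σ e x)⁻¹ (wF σ e x)
          * ⟪x - σ • e, h⟫_ℝ^2
      + 2 * M12 (σ^2-1) ((σ^2-1)/(2*σ)) (rF σ e x)⁻¹ (rF σ e x + wF σ e x)⁻¹ (wF σ e x)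
          * ⟪x - σ • e, h⟫_ℝ * ⟪e, h⟫_ℝ
      + M22 (σ^2-1) ((σ^2-1)/(2*σ)) (rF σ e x)⁻¹ (rF σ e x + wF σ e x)⁻¹ (wF σ e x)
          * ⟪e, h⟫_ℝ^2 := by
  have hr := rF_pos he hx
  have hw := wF_pos he hx
  have dr := rF_line (h := h) he hx
  have dw := wF_line (σ := σ) (e := e) (x := x) (h := h)
  have x0 : x + (0:ℝ) • h = x := by simp
  have du := dr.inv (by simpa using hr.ne')
  have ds := (dr.add dw).inv (by simp only [x0, Pi.add_apply]; positivity)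
  have dy : HasDerivAt (fun t : ℝ => x + t • h - σ • e) h 0 := by
    have := ((hasDerivAt_id (0:ℝ)).smul_const h).const_add x
    simpa using this.sub_const (σ • e)
  have dA := Af_deriv σ (σ^2-1) ((σ^2-1)/(2*σ)) du ds dw
  have dB := Bf_deriv (σ^2-1) ((σ^2-1)/(2*σ)) du ds dw
  have dV := (dA.smul dy).add (dB.smul_const e)
  have hV : HasDerivAt (fun t : ℝ => V σ e (x + t • h)) (fderiv ℝ (V σ e) x h) 0 := by
    have hd : DifferentiableAt ℝ (V σ e) x := (V_contDiffAt he hx).differentiableAt (by simp)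
    have hl : HasDerivAt (fun t : ℝ => x + t • h) h 0 := by
      have := ((hasDerivAt_id (0:ℝ)).smul_const h).const_add x
      simpa using this
    have hd' : HasFDerivAt (V σ e) (fderiv ℝ (V σ e) x) (x + (0:ℝ) • h) := by
      rw [x0]; exact hd.hasFDerivAt
    exact hd'.comp_hasDerivAt (0:ℝ) hl
  have hu := hV.unique dV
  rw [hu]
  simp only [x0, Pi.add_apply, Pi.inv_apply] at *
  rw [inner_add_left, inner_add_left, inner_smul_left, inner_smul_left, inner_smul_left,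
    real_inner_self_eq_norm_sq]
  simp only [conj_trivial]
  have e1 : -(⟪x - σ • e, h⟫_ℝ / rF σ e x) / rF σ e x ^ 2 = -((rF σ e x)⁻¹)^3 * ⟪x - σ • e, h⟫_ℝ := by
    field_simp
  have e2 : -(⟪x - σ • e, h⟫_ℝ / rF σ e x + -⟪e, h⟫_ℝ) / (rF σ e x + wF σ e x) ^ 2 =
      -((rF σ e x + wF σ e x)⁻¹)^2 * ((rF σ e x)⁻¹ * ⟪x - σ • e, h⟫_ℝ - ⟪e, h⟫_ℝ) := by
    have : rF σ e x + wF σ e x ≠ 0 := by positivity
    field_simp
    ring
  rw [e1, e2]
  simp only [M11, M12, M22]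
  ring

end H92FS
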