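import Mathlib
import Pool.Agent.Helper92.FSVec

/-! Trace inequality for the field and the boundary volume inequality (k = 3). -/

open scoped InnerProductSpace ContDiff
open MeasureTheory

namespace H92FS

variable {E : Type*} [NormedAddCommGroup E] [InnerProductSpace ℝ E]

lemma resid_perp (T : Fin 3 → E) (hT : Orthonormal ℝ T) (a : E) (i : Fin 3) :
    ⟪a - ∑ j, ⟪T j, a⟫_ℝ • T j, T i⟫_ℝ = 0 := by
  rw [inner_sub_left, sum_inner]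
  simp only [inner_smul_left, conj_trivial, orthonormal_iff_ite.mp hT]
  simp [real_inner_comm]

lemma resid_inner (T : Fin 3 → E) (hT : Orthonormal ℝ T) (a b : E) :
    ⟪a - ∑ j, ⟪T j, a⟫_ℝ • T j, b - ∑ j, ⟪T j, b⟫_ℝ • T j⟫_ℝ =
      ⟪a, b⟫_ℝ - ∑ j, ⟪T j, a⟫_ℝ * ⟪T j, b⟫_ℝ := by
  rw [inner_sub_right, inner_sum]
  simp only [inner_smul_right, resid_perp T hT a, mul_zero, Finset.sum_const_zero, sub_zero]
  rw [inner_sub_left, sum_inner]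
  simp only [inner_smul_left, conj_trivial]

lemma psd_pair {p q s m11 m12 m22 : ℝ} (h11 : 0 ≤ m11) (h22 : 0 ≤ m22)
    (h12 : m12^2 ≤ m11 * m22) (hp : 0 ≤ p) (hs : 0 ≤ s) (hq : q^2 ≤ p * s) :
    0 ≤ m11 * p + 2 * m12 * q + m22 * s := by
  have hA : 0 ≤ m11 * p := mul_nonneg h11 hp
  have hB : 0 ≤ m22 * s := mul_nonneg h22 hs
  have h1 : m12^2 * q^2 ≤ (m11 * m22) * (p * s) :=
    mul_le_mul h12 hq (sq_nonneg q) (mul_nonneg h11 h22)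
  have h2 : (2 * m12 * q)^2 ≤ (m11 * p + m22 * s)^2 := by
    nlinarith [sq_nonneg (m11 * p - m22 * s)]
  have h3 := (abs_le_of_sq_le_sq' h2 (by positivity)).1
  linarith

/-- The calibrating field has nonpositive trace on every `3`-frame, on the closed unit ball. -/
lemma trace_nonpos {σ : ℝ} {e x : E} (hσ : 1 < σ) (he : ‖e‖ = 1) (hx : ‖x‖ ≤ 1)
    (T : Fin 3 → E) (hT : Orthonormal ℝ T) :
    ∑ j, ⟪fderiv ℝ (V σ e) x (T j), T j⟫_ℝ ≤ 0 := by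
  have hx' : ‖x‖ < σ := lt_of_le_of_lt hx hσ
  have hr := rF_pos he hx'
  have hw := wF_pos he hx'
  have hwr : wF σ e x ≤ rF σ e x := wF_le_rF he
  have hσ0 : 0 < σ := by linarith
  have hD : σ^2 - 1 = 2 * σ * ((σ^2-1)/(2*σ)) := by field_simp
  have hε : 0 < (σ^2-1)/(2*σ) := div_pos (by nlinarith) (by positivity)
  have hrsq := rF_sq (σ := σ) (x := x) he
  have hω : rF σ e x ^ 2 + (σ^2-1) ≤ 2 * σ * wF σ e x := by
    rw [hrsq]; unfold wF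
    have : ‖x‖^2 ≤ 1 := by nlinarith [norm_nonneg x]
    nlinarith
  obtain ⟨p11, p22, p12⟩ := M_psd hσ hr hw hD hε hwr hω
  have hL := L_id (σ := σ) hr hw hD
  have hsum : ∑ j, ⟪fderiv ℝ (V σ e) x (T j), T j⟫_ℝ =
      3 * Af σ (σ^2-1) ((σ^2-1)/(2*σ)) (rF σ e x)⁻¹ (rF σ e x + wF σ e x)⁻¹ (wF σ e x)
      + M11 σ (σ^2-1) ((σ^2-1)/(2*σ)) (rF σ e x)⁻¹ (rF σ e x + wF σ e x)⁻¹ (wF σ e x)
          * ∑ j, ⟪T j, x - σ • e⟫_ℝ * ⟪T j, x - σ • e⟫_ℝ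
      + 2 * M12 (σ^2-1) ((σ^2-1)/(2*σ)) (rF σ e x)⁻¹ (rF σ e x + wF σ e x)⁻¹ (wF σ e x)
          * ∑ j, ⟪T j, x - σ • e⟫_ℝ * ⟪T j, e⟫_ℝ
      + M22 (σ^2-1) ((σ^2-1)/(2*σ)) (rF σ e x)⁻¹ (rF σ e x + wF σ e x)⁻¹ (wF σ e x)
          * ∑ j, ⟪T j, e⟫_ℝ * ⟪T j, e⟫_ℝ := by
    simp only [inner_fderiv he hx', Fin.sum_univ_three, hT.1 0, hT.1 1, hT.1 2,
      real_inner_comm (T 0), real_inner_comm (T 1), real_inner_comm (T 2)]
    ring
  rw [hsum]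
  have r11 := resid_inner T hT (x - σ • e) (x - σ • e)
  have r12 := resid_inner T hT (x - σ • e) e
  have r22 := resid_inner T hT e e
  have n11 : 0 ≤ ⟪(x - σ • e) - ∑ j, ⟪T j, x - σ • e⟫_ℝ • T j,
      (x - σ • e) - ∑ j, ⟪T j, x - σ • e⟫_ℝ • T j⟫_ℝ := real_inner_self_nonneg
  have n22 : 0 ≤ ⟪e - ∑ j, ⟪T j, e⟫_ℝ • T j, e - ∑ j, ⟪T j, e⟫_ℝ • T j⟫_ℝ :=
    real_inner_self_nonneg
  have n12 := real_inner_mul_inner_self_le ((x - σ • e) - ∑ j, ⟪T j, x - σ • e⟫_ℝ • T j)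
    (e - ∑ j, ⟪T j, e⟫_ℝ • T j)
  have hpsd := psd_pair p11 p22 p12 n11 n22 (by rw [sq]; exact n12)
  rw [r11, r12, r22] at hpsd
  have s11 : ⟪x - σ • e, x - σ • e⟫_ℝ = rF σ e x ^ 2 := by
    rw [real_inner_self_eq_norm_sq]; rfl
  have s12 : ⟪x - σ • e, e⟫_ℝ = - wF σ e x := by
    unfold wF
    rw [inner_sub_left, inner_smul_left, real_inner_self_eq_norm_sq, he, real_inner_comm]
    simp only [conj_trivial]; ring
  have s22 : ⟪e, e⟫_ℝ = 1 := by rw [real_inner_self_eq_norm_sq, he]; norm_num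
  rw [s11, s12, s22] at hpsd
  linarith

/-- The flux of the field through the unit sphere. -/
lemma flux {σ : ℝ} {e x : E} (hσ : 1 < σ) (he : ‖e‖ = 1) (hx : ‖x‖ = 1) :
    ⟪V σ e x, x⟫_ℝ = ((σ^2-1)/‖x - σ • e‖^2)^2 - 1 := by
  have hx' : ‖x‖ < σ := by rw [hx]; exact hσ
  have hr := rF_pos he hx'
  have hw := wF_pos he hx'
  have hrsq := rF_sq (σ := σ) (x := x) he
  rw [hx] at hrsq
  have hwe : 2 * σ * wF σ e x = rF σ e x ^ 2 + (σ^2-1) := by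
    rw [hrsq]; unfold wF; ring
  have h1 := flux_id hσ hr hw rfl rfl hwe
  have i1 : ⟪x - σ • e, x⟫_ℝ = (rF σ e x ^ 2 - (σ^2-1))/2 := by
    rw [hrsq, inner_sub_left, inner_smul_left, real_inner_self_eq_norm_sq, hx]
    simp only [conj_trivial]; ring
  have i2 : ⟪e, x⟫_ℝ = σ - wF σ e x := by unfold wF; ring
  unfold V
  rw [inner_add_left, inner_smul_left, inner_smul_left, i1, i2]
  simp only [conj_trivial]
  rw [h1]
  change _ = ((σ^2-1)/(rF σ e x)^2)^2 - 1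
  rw [div_pow, ← pow_mul]

end H92FS
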