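import Mathlib
import Pool.Agent.Helper92.FSMain
import Pool.Agent.Helper92.FSDef

/-! From the field to the boundary volume inequality (k = 3). -/

open scoped InnerProductSpace ContDiff Topology
open MeasureTheory

namespace H92FS

variable {E : Type*} [NormedAddCommGroup E] [InnerProductSpace ℝ E]

/-- cut off a field that is smooth on the ball of radius `σ > 1` -/
lemma exists_cutoff [FiniteDimensional ℝ E] {σ : ℝ} (hσ : 1 < σ) (F : E → E)
    (hF : ∀ x, ‖x‖ < σ → ContDiffAt ℝ ∞ F x) :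
    ∃ X : E → E, ContDiff ℝ ∞ X ∧ HasCompactSupport X ∧ ∀ x, ‖x‖ ≤ 1 → X =ᶠ[𝓝 x] F := by
  let φ : ContDiffBump (0 : E) := ⟨1 + (σ-1)/3, 1 + 2*(σ-1)/3, by linarith, by linarith⟩
  have hin : φ.rIn = 1 + (σ-1)/3 := rfl
  have hout : φ.rOut = 1 + 2*(σ-1)/3 := rfl
  refine ⟨fun x => φ x • F x, ?_, ?_, ?_⟩
  · rw [contDiff_iff_contDiffAt]
    intro x
    by_cases hx : ‖x‖ < σ
    · exact (φ.contDiff.contDiffAt).smul (hF x hx)
    · have hx2 : x ∉ tsupport φ := by
        rw [φ.tsupport_eq, Metric.mem_closedBall, dist_zero_right, hout]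
        push Not at hx ⊢
        linarith
      have h0 : (φ : E → ℝ) =ᶠ[𝓝 x] 0 := notMem_tsupport_iff_eventuallyEq.mp hx2
      have h1 : (fun x => φ x • F x) =ᶠ[𝓝 x] fun _ => 0 := by
        filter_upwards [h0] with y hy
        rw [hy]; simp
      exact contDiffAt_const.congr_of_eventuallyEq h1
  · exact φ.hasCompactSupport.smul_right
  · intro x hx
    have h1 : (φ : E → ℝ) =ᶠ[𝓝 x] 1 := φ.eventuallyEq_one_of_mem_ball (by
      rw [Metric.mem_ball, dist_zero_right, hin]; linarith)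
    filter_upwards [h1] with y hy
    rw [hy]; simp

/-- The boundary volume inequality of Fraser and Schoen for `k = 3`. -/
theorem boundary_volume {n : ℕ} {S B : Type*} [MeasurableSpace S] [MeasurableSpace B]
    {vol : Measure S} {bvol : Measure B} {u : S → EuclideanSpace ℝ (Fin n)}
    {T : S → Fin 3 → EuclideanSpace ℝ (Fin n)} {b : B → EuclideanSpace ℝ (Fin n)}
    (h : FreeBoundaryMinimal 3 n vol bvol u T b) (y : EuclideanSpace ℝ (Fin n)) (hy : 1 < ‖y‖) :
    ∫ q, ((‖y‖^2 - 1) / ‖b q - y‖^2)^2 ∂bvol ≤ (bvol Set.univ).toReal := by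
  have hfin : IsFiniteMeasure bvol := ⟨h.finite_bvol⟩
  set σ := ‖y‖ with hσdef
  have hσ0 : 0 < σ := by linarith
  set e : EuclideanSpace ℝ (Fin n) := σ⁻¹ • y with hedef
  have he : ‖e‖ = 1 := by
    rw [hedef, norm_smul, norm_inv, Real.norm_eq_abs, abs_of_pos hσ0, ← hσdef]
    exact inv_mul_cancel₀ hσ0.ne'
  have hσe : σ • e = y := by
    rw [hedef, smul_smul, mul_inv_cancel₀ hσ0.ne', one_smul]
  obtain ⟨X, hX1, hX2, hX3⟩ := exists_cutoff hy (V σ e) (fun x hx => V_contDiffAt he hx)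
  have hfv := h.first_variation X hX1 hX2
  have hL : ∫ p, ∑ j, ⟪fderiv ℝ X (u p) (T p j), T p j⟫_ℝ ∂vol ≤ 0 := by
    apply integral_nonpos
    intro p
    have := trace_nonpos hy he (h.mem_ball p) (T p) (h.frame p)
    rw [← (hX3 (u p) (h.mem_ball p)).fderiv_eq] at this
    exact this
  have hR : ∫ q, ⟪X (b q), b q⟫_ℝ ∂bvol = ∫ q, (((σ^2 - 1) / ‖b q - y‖^2)^2 - 1) ∂bvol := by
    congr 1
    funext q
    rw [(hX3 (b q) (h.mem_sphere q).le).eq_of_nhds, flux hy he (h.mem_sphere q), hσe]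
  rw [hfv, hR] at hL
  have hmeas : Measurable fun q => ((σ^2 - 1) / ‖b q - y‖^2)^2 := by
    have hb := h.measurable_b
    fun_prop
  have hint : Integrable (fun q => ((σ^2 - 1) / ‖b q - y‖^2)^2) bvol := by
    refine Integrable.of_bound hmeas.aestronglyMeasurable (((σ^2-1)/(σ-1)^2)^2) ?_
    filter_upwards with q
    have h1 : σ - 1 ≤ ‖b q - y‖ := by
      have := norm_sub_norm_le y (b q)
      rw [h.mem_sphere q, norm_sub_rev] at this
      linarith
    have h2 : 0 < σ - 1 := by linarith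
    have h3 : 0 < σ^2 - 1 := by nlinarith
    rw [Real.norm_eq_abs, abs_of_nonneg (sq_nonneg _)]
    have h4 : (σ-1)^2 ≤ ‖b q - y‖^2 := by gcongr
    have h5 : (σ^2-1)/‖b q - y‖^2 ≤ (σ^2-1)/(σ-1)^2 := by gcongr
    have h6 : 0 ≤ (σ^2-1)/‖b q - y‖^2 := by positivity
    gcongr
  rw [integral_sub hint (integrable_const 1)] at hL
  simp only [integral_const, smul_eq_mul, mul_one] at hL
  have h7 : bvol.real Set.univ = (bvol Set.univ).toReal := rfl
  linarith

end H92FS
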