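import Pool.Agent.Helper92.LBCheck

namespace H92LB

def cert3 : List (List ℕ × Tr 3) := [
  ([1,4,4], .s 0 [1,3,3] none 2 ![.s 1 [0,2,2] none 3 ![.w 0, .w 1, .w 2], .w 1, .w 2]),
  ([2,3,4], .s 0 [2,2,2] none 3 ![.w 0, .w 1, .w 2]),
  ([3,3,3], .s 0 [2,2,2] none 3 ![.w 0, .w 1, .w 2])]

def cert4 : List (List ℕ × Tr 4) := [
  ([0,4,6,6], .s 0 [0,4,5,4] none 3 ![.s 1 [0,3,3,3] none 4 ![.w 0, .w 1, .w 2, .w 3], .w 1, .w 2, .w 3]),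
  ([1,3,6,6], .s 0 [1,3,5,4] none 3 ![.s 1 [0,3,3,3] none 4 ![.w 0, .w 1, .w 2, .w 3], .s 1 [1,1,4,4] none 3 ![.s 2 [0,0,3,3] none 4 ![.w 0, .w 1, .w 2, .w 3], .w 1, .w 2, .w 3], .w 2, .w 3]),
  ([2,2,6,6], .s 0 [2,2,5,4] none 3 ![.s 1 [2,0,4,4] none 3 ![.w 0, .s 2 [0,0,3,3] none 4 ![.w 0, .w 1, .w 2, .w 3], .w 2, .w 3], .s 1 [1,1,4,4] none 3 ![.s 2 [0,0,3,3] none 4 ![.w 0, .w 1, .w 2, .w 3], .w 1, .w 2, .w 3], .w 2, .w 3]),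
  ([0,5,5,6], .s 0 [0,5,4,4] none 3 ![.s 1 [0,3,3,3] none 4 ![.w 0, .w 1, .w 2, .w 3], .w 1, .w 2, .w 3]),
  ([1,4,5,6], .s 0 [1,4,4,4] none 3 ![.s 1 [0,3,3,3] none 4 ![.w 0, .w 1, .w 2, .w 3], .w 1, .w 2, .w 3]),
  ([2,3,5,6], .s 0 [2,3,4,4] none 3 ![.s 1 [0,3,3,3] none 4 ![.w 0, .w 1, .w 2, .w 3], .s 1 [1,1,4,4] none 3 ![.s 2 [0,0,3,3] none 4 ![.w 0, .w 1, .w 2, .w 3], .w 1, .w 2, .w 3], .w 2, .w 3]),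
  ([2,4,4,6], .s 0 [1,4,4,4] none 3 ![.s 1 [0,3,3,3] none 4 ![.w 0, .w 1, .w 2, .w 3], .w 1, .w 2, .w 3]),
  ([3,3,4,6], .s 0 [3,3,3,3] none 4 ![.w 0, .w 1, .w 2, .w 3]),
  ([1,5,5,5], .s 0 [1,4,4,4] none 3 ![.s 1 [0,3,3,3] none 4 ![.w 0, .w 1, .w 2, .w 3], .w 1, .w 2, .w 3]),
  ([2,4,5,5], .s 0 [1,4,4,4] none 3 ![.s 1 [0,3,3,3] none 4 ![.w 0, .w 1, .w 2, .w 3], .w 1, .w 2, .w 3]),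
  ([3,3,5,5], .s 0 [3,3,3,3] none 4 ![.w 0, .w 1, .w 2, .w 3]),
  ([3,4,4,5], .s 0 [3,3,3,3] none 4 ![.w 0, .w 1, .w 2, .w 3]),
  ([4,4,4,4], .s 0 [3,3,3,3] none 4 ![.w 0, .w 1, .w 2, .w 3])]

def cert5 : List (List ℕ × Tr 5) := [
  ([0,1,8,8,8], .s 0 [0,1,8,7,7] none 2 ![.s 1 [0,1,8,5,5] none 4 ![.s 2 [0,0,5,5,5] none 4 ![.w 0, .s 0 [0,0,4,4,4] (some 2) 5 ![.w 0, .w 1, .w 2, .w 3, .w 4], .w 2, .w 3, .w 4], .s 0 [0,1,6,5,5] (some 1) 4 ![.s 2 [0,0,4,4,4] none 5 ![.w 0, .w 1, .w 2, .w 3, .w 4], .w 1, .w 2, .w 3, .w 4], .w 2, .w 3, .w 4], .s 1 [0,0,7,7,7] none 2 ![.s 2 [0,0,7,5,5] none 4 ![.s 0 [0,0,5,5,5] (some 2) 4 ![.w 0, .s 1 [0,0,4,4,4] (some 2) 5 ![.w 0, .w 1, .w 2, .w 3, .w 4], .w 2, .w 3, .w 4], .s 1 [0,0,5,5,5] (some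 1) 4 ![.s 0 [0,0,4,4,4] (some 2) 5 ![.w 0, .w 1, .w 2, .w 3, .w 4], .w 1, .w 2, .w 3, .w 4], .w 2, .w 3, .w 4], .s 2 [0,0,7,5,5] none 4 ![.s 3 [0,0,4,4,4] none 5 ![.w 0, .w 1, .w 2, .w 3, .w 4], .s 0 [0,0,5,5,5] (some 2) 4 ![.s 1 [0,0,4,4,4] (some 2) 5 ![.w 0, .w 1, .w 2, .w 3, .w 4], .w 1, .w 2, .w 3, .w 4], .w 2, .w 3, .w 4], .w 2, .w 3, .w 4], .w 2, .w 3, .w 4]),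
  ([0,2,7,8,8], .s 0 [0,2,7,7,7] none 2 ![.s 1 [0,2,7,5,5] none 4 ![.s 2 [0,0,5,5,5] none 4 ![.w 0, .s 0 [0,0,4,4,4] (some 2) 5 ![.w 0, .w 1, .w 2, .w 3, .w 4], .w 2, .w 3, .w 4], .s 0 [0,2,5,5,5] (some 1) 4 ![.s 2 [0,0,4,4,4] none 5 ![.w 0, .w 1, .w 2, .w 3, .w 4], .w 1, .w 2, .w 3, .w 4], .w 2, .w 3, .w 4], .s 1 [0,2,7,5,5] none 4 ![.s 2 [0,2,4,4,4] none 5 ![.w 0, .w 1, .w 2, .w 3, .w 4], .s 0 [0,2,5,5,5] (some 1) 4 ![.s 2 [0,0,4,4,4] none 5 ![.w 0, .w 1, .w 2, .w 3, .w 4], .w 1, .w 2, .w 3, .w 4], .w 2, .w 3, .w 4], .w 2, .w 3, .w 4]),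
  ([1,1,7,8,8], .s 0 [1,1,7,7,5] none 4 ![.s 1 [1,1,5,5,5] none 4 ![.w 0, .s 2 [0,0,4,4,4] none 5 ![.w 0, .w 1, .w 2, .w 3, .w 4], .w 2, .w 3, .w 4], .s 1 [1,1,5,5,5] none 4 ![.s 2 [0,0,4,4,4] none 5 ![.w 0, .w 1, .w 2, .w 3, .w 4], .w 1, .w 2, .w 3, .w 4], .w 2, .w 3, .w 4]),
  ([0,3,6,8,8], .s 0 [0,3,6,7,7] none 2 ![.s 1 [0,3,6,5,5] none 4 ![.s 2 [0,0,5,5,5] none 4 ![.w 0, .s 0 [0,0,4,4,4] (some 2) 5 ![.w 0, .w 1, .w 2, .w 3, .w 4], .w 2, .w 3, .w 4], .s 0 [0,2,5,5,5] (some 1) 4 ![.s 2 [0,0,4,4,4] none 5 ![.w 0, .w 1, .w 2, .w 3, .w 4], .w 1, .w 2, .w 3, .w 4], .w 2, .w 3, .w 4], .s 1 [0,3,6,5,5] none 4 ![.s 2 [0,2,4,4,4] none 5 ![.w 0, .w 1, .w 2, .w 3, .w 4], .w 1, .w 2, .w 3, .w 4], .s 1 [0,2,5,7,7] none 2 ![.s 0 [0,2,5,7,5]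 (some 1) 4 ![.s 2 [0,0,5,5,5] none 4 ![.w 0, .s 1 [0,0,4,4,4] (some 2) 5 ![.w 0, .w 1, .w 2, .w 3, .w 4], .w 2, .w 3, .w 4], .s 1 [0,2,5,5,5] (some 1) 4 ![.s 2 [0,0,4,4,4] none 5 ![.w 0, .w 1, .w 2, .w 3, .w 4], .w 1, .w 2, .w 3, .w 4], .w 2, .w 3, .w 4], .s 0 [0,2,5,7,5] (some 1) 4 ![.s 2 [0,2,4,4,4] none 5 ![.w 0, .w 1, .w 2, .w 3, .w 4], .s 1 [0,2,5,5,5] (some 1) 4 ![.s 2 [0,0,4,4,4] none 5 ![.w 0, .w 1, .w 2, .w 3, .w 4], .w 1, .w 2, .w 3, .w 4], .w 2, .w 3, .w 4], .w 2, .w 3, .w 4], .w 3, .w 4]),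
  ([1,2,6,8,8], .s 0 [1,2,6,7,5] none 4 ![.s 1 [1,1,5,5,5] none 4 ![.w 0, .s 2 [0,0,4,4,4] none 5 ![.w 0, .w 1, .w 2, .w 3, .w 4], .w 2, .w 3, .w 4], .s 1 [1,1,5,5,5] none 4 ![.s 2 [0,0,4,4,4] none 5 ![.w 0, .w 1, .w 2, .w 3, .w 4], .w 1, .w 2, .w 3, .w 4], .w 2, .w 3, .w 4]),
  ([0,4,5,8,8], .s 0 [0,4,5,7,5] none 4 ![.s 1 [0,4,4,4,4] none 5 ![.w 0, .w 1, .w 2, .w 3, .w 4], .s 1 [0,2,5,5,5] none 4 ![.s 2 [0,0,4,4,4] none 5 ![.w 0, .w 1, .w 2, .w 3, .w 4], .w 1, .w 2, .w 3, .w 4], .w 2, .w 3, .w 4]),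
  ([1,3,5,8,8], .s 0 [1,3,5,7,5] none 4 ![.s 1 [1,1,5,5,5] none 4 ![.w 0, .s 2 [0,0,4,4,4] none 5 ![.w 0, .w 1, .w 2, .w 3, .w 4], .w 2, .w 3, .w 4], .s 1 [1,1,5,5,5] none 4 ![.s 2 [0,0,4,4,4] none 5 ![.w 0, .w 1, .w 2, .w 3, .w 4], .w 1, .w 2, .w 3, .w 4], .w 2, .w 3, .w 4]),
  ([2,2,5,8,8], .s 0 [2,2,5,7,5] none 4 ![.s 1 [2,0,5,5,5] none 4 ![.w 0, .s 2 [0,0,4,4,4] none 5 ![.w 0, .w 1, .w 2, .w 3, .w 4], .w 2, .w 3, .w 4], .s 1 [1,1,5,5,5] none 4 ![.s 2 [0,0,4,4,4] none 5 ![.w 0, .w 1, .w 2, .w 3, .w 4], .w 1, .w 2, .w 3, .w 4], .w 2, .w 3, .w 4]),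
  ([1,4,4,8,8], .s 0 [1,4,4,7,5] none 4 ![.s 1 [0,4,4,4,4] none 5 ![.w 0, .w 1, .w 2, .w 3, .w 4], .s 1 [1,4,2,5,5] none 4 ![.s 2 [1,2,0,5,5] none 4 ![.w 0, .w 1, .s 3 [0,0,0,4,4] none 5 ![.w 0, .w 1, .w 2, .w 3, .w 4], .w 3, .w 4], .w 1, .s 2 [1,1,1,5,5] none 4 ![.s 3 [0,0,0,4,4] none 5 ![.w 0, .w 1, .w 2, .w 3, .w 4], .w 1, .w 2, .w 3, .w 4], .w 3, .w 4], .s 1 [1,4,2,5,5] none 4 ![.s 2 [0,4,0,4,4] none 5 ![.w 0, .w 1, .w 2, .w 3, .w 4], .s 2 [1,1,1,5,5] none 4 ![.s 3 [0,0,0,4,4] none 5 ![.w 0, .w 1, .w 2, .w 3, .w 4], .w 1, .w 2, .w 3, .w 4], .w 2, .w 3, .w 4], .w 3, .w 4]),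
  ([2,3,4,8,8], .s 0 [2,3,4,7,5] none 4 ![.s 1 [2,3,2,5,5] none 4 ![.w 0, .s 2 [2,1,0,5,5] none 4 ![.w 0, .w 1, .s 3 [0,0,0,4,4] none 5 ![.w 0, .w 1, .w 2, .w 3, .w 4], .w 3, .w 4], .s 2 [2,0,1,5,5] none 4 ![.w 0, .s 3 [0,0,0,4,4] none 5 ![.w 0, .w 1, .w 2, .w 3, .w 4], .w 2, .w 3, .w 4], .w 3, .w 4], .s 1 [2,3,2,5,5] none 4 ![.s 2 [2,1,0,5,5] none 4 ![.w 0, .w 1, .s 3 [0,0,0,4,4] none 5 ![.w 0, .w 1, .w 2, .w 3, .w 4], .w 3, .w 4], .w 1, .s 2 [1,1,1,5,5] none 4 ![.s 3 [0,0,0,4,4] none 5 ![.w 0, .w 1, .w 2, .w 3, .w 4], .w 1, .w 2, .w 3, .w 4], .w 3, .w 4], .s 1 [2,3,2,5,5] none 4 ![.s 2 [2,0,1,5,5] none 4 ![.w 0, .s 3 [0,0,0,4,4] none 5 ![.w 0, .w 1, .w 2, .w 3, .w 4], .w 2, .w 3, .w 4], .s 2 [1,1,1,5,5] none 4 ![.s 3 [0,0,0,4,4]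 none 5 ![.w 0, .w 1, .w 2, .w 3, .w 4], .w 1, .w 2, .w 3, .w 4], .w 2, .w 3, .w 4], .w 3, .w 4]),
  ([3,3,3,8,8], .s 0 [3,3,3,7,5] none 4 ![.s 1 [3,3,1,5,5] none 4 ![.w 0, .s 2 [2,1,0,5,5] none 4 ![.w 0, .w 1, .s 3 [0,0,0,4,4] none 5 ![.w 0, .w 1, .w 2, .w 3, .w 4], .w 3, .w 4], .s 2 [2,0,1,5,5] none 4 ![.w 0, .s 3 [0,0,0,4,4] none 5 ![.w 0, .w 1, .w 2, .w 3, .w 4], .w 2, .w 3, .w 4], .w 3, .w 4], .s 1 [3,3,1,5,5] none 4 ![.s 2 [2,1,0,5,5] none 4 ![.w 0, .w 1, .s 3 [0,0,0,4,4] none 5 ![.w 0, .w 1, .w 2, .w 3, .w 4], .w 3, .w 4], .w 1, .s 2 [1,1,1,5,5] none 4 ![.s 3 [0,0,0,4,4] none 5 ![.w 0, .w 1, .w 2, .w 3, .w 4], .w 1, .w 2, .w 3, .w 4], .w 3, .w 4], .s 1 [3,3,1,5,5] none 4 ![.s 2 [2,0,1,5,5] none 4 ![.w 0, .s 3 [0,0,0,4,4]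 none 5 ![.w 0, .w 1, .w 2, .w 3, .w 4], .w 2, .w 3, .w 4], .s 2 [1,1,1,5,5] none 4 ![.s 3 [0,0,0,4,4] none 5 ![.w 0, .w 1, .w 2, .w 3, .w 4], .w 1, .w 2, .w 3, .w 4], .w 2, .w 3, .w 4], .w 3, .w 4]),
  ([0,3,7,7,8], .s 0 [0,2,7,7,7] none 2 ![.s 1 [0,2,7,5,5] none 4 ![.s 2 [0,0,5,5,5] none 4 ![.w 0, .s 0 [0,0,4,4,4] (some 2) 5 ![.w 0, .w 1, .w 2, .w 3, .w 4], .w 2, .w 3, .w 4], .s 0 [0,2,5,5,5] (some 1) 4 ![.s 2 [0,0,4,4,4] none 5 ![.w 0, .w 1, .w 2, .w 3, .w 4], .w 1, .w 2, .w 3, .w 4], .w 2, .w 3, .w 4], .s 1 [0,2,7,5,5] none 4 ![.s 2 [0,2,4,4,4] none 5 ![.w 0, .w 1, .w 2, .w 3, .w 4], .s 0 [0,2,5,5,5] (some 1) 4 ![.s 2 [0,0,4,4,4] none 5 ![.w 0, .w 1, .w 2, .w 3, .w 4], .w 1, .w 2, .w 3, .w 4], .w 2, .w 3, .w 4], .w 2,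 .w 3, .w 4]),
  ([1,2,7,7,8], .s 0 [1,2,7,6,5] none 4 ![.s 1 [1,1,5,5,5] none 4 ![.w 0, .s 2 [0,0,4,4,4] none 5 ![.w 0, .w 1, .w 2, .w 3, .w 4], .w 2, .w 3, .w 4], .s 1 [1,1,5,5,5] none 4 ![.s 2 [0,0,4,4,4] none 5 ![.w 0, .w 1, .w 2, .w 3, .w 4], .w 1, .w 2, .w 3, .w 4], .w 2, .w 3, .w 4]),
  ([0,4,6,7,8], .s 0 [0,4,6,6,5] none 4 ![.s 1 [0,4,4,4,4] none 5 ![.w 0, .w 1, .w 2, .w 3, .w 4], .s 1 [0,2,5,5,5] none 4 ![.s 2 [0,0,4,4,4] none 5 ![.w 0, .w 1, .w 2, .w 3, .w 4], .w 1, .w 2, .w 3, .w 4], .w 2, .w 3, .w 4]),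
  ([1,3,6,7,8], .s 0 [1,3,6,6,5] none 4 ![.s 1 [1,1,5,5,5] none 4 ![.w 0, .s 2 [0,0,4,4,4] none 5 ![.w 0, .w 1, .w 2, .w 3, .w 4], .w 2, .w 3, .w 4], .s 1 [1,1,5,5,5] none 4 ![.s 2 [0,0,4,4,4] none 5 ![.w 0, .w 1, .w 2, .w 3, .w 4], .w 1, .w 2, .w 3, .w 4], .w 2, .w 3, .w 4]),
  ([2,2,6,7,8], .s 0 [2,2,6,6,5] none 4 ![.s 1 [2,0,5,5,5] none 4 ![.w 0, .s 2 [0,0,4,4,4] none 5 ![.w 0, .w 1, .w 2, .w 3, .w 4], .w 2, .w 3, .w 4], .s 1 [1,1,5,5,5] none 4 ![.s 2 [0,0,4,4,4] none 5 ![.w 0, .w 1, .w 2, .w 3, .w 4], .w 1, .w 2, .w 3, .w 4], .w 2, .w 3, .w 4]),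
  ([0,5,5,7,8], .s 0 [0,5,5,6,5] none 4 ![.s 1 [0,4,4,4,4] none 5 ![.w 0, .w 1, .w 2, .w 3, .w 4], .w 1, .w 2, .w 3, .w 4]),
  ([1,4,5,7,8], .s 0 [1,4,5,6,5] none 4 ![.s 1 [0,4,4,4,4] none 5 ![.w 0, .w 1, .w 2, .w 3, .w 4], .s 1 [1,1,5,5,5] none 4 ![.s 2 [0,0,4,4,4] none 5 ![.w 0, .w 1, .w 2, .w 3, .w 4], .w 1, .w 2, .w 3, .w 4], .w 2, .w 3, .w 4]),
  ([2,3,5,7,8], .s 0 [2,3,5,6,5] none 4 ![.s 1 [2,0,5,5,5] none 4 ![.w 0, .s 2 [0,0,4,4,4] none 5 ![.w 0, .w 1, .w 2, .w 3, .w 4], .w 2, .w 3, .w 4], .s 1 [1,1,5,5,5] none 4 ![.s 2 [0,0,4,4,4] none 5 ![.w 0, .w 1, .w 2, .w 3, .w 4], .w 1, .w 2, .w 3, .w 4], .w 2, .w 3, .w 4]),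
  ([2,4,4,7,8], .s 0 [2,4,4,6,5] none 4 ![.s 1 [0,4,4,4,4] none 5 ![.w 0, .w 1, .w 2, .w 3, .w 4], .s 1 [2,4,1,5,5] none 4 ![.s 2 [2,1,0,5,5] none 4 ![.w 0, .w 1, .s 3 [0,0,0,4,4] none 5 ![.w 0, .w 1, .w 2, .w 3, .w 4], .w 3, .w 4], .w 1, .s 2 [1,1,1,5,5] none 4 ![.s 3 [0,0,0,4,4] none 5 ![.w 0, .w 1, .w 2, .w 3, .w 4], .w 1, .w 2, .w 3, .w 4], .w 3, .w 4], .s 1 [2,4,1,5,5] none 4 ![.s 2 [0,4,0,4,4] none 5 ![.w 0, .w 1, .w 2, .w 3, .w 4], .s 2 [1,1,1,5,5] none 4 ![.s 3 [0,0,0,4,4] none 5 ![.w 0, .w 1, .w 2, .w 3, .w 4], .w 1, .w 2, .w 3, .w 4], .w 2, .w 3, .w 4], .w 3, .w 4]),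
  ([3,3,4,7,8], .s 0 [3,3,4,6,5] none 4 ![.s 1 [3,3,1,5,5] none 4 ![.w 0, .s 2 [2,1,0,5,5] none 4 ![.w 0, .w 1, .s 3 [0,0,0,4,4] none 5 ![.w 0, .w 1, .w 2, .w 3, .w 4], .w 3, .w 4], .s 2 [2,0,1,5,5] none 4 ![.w 0, .s 3 [0,0,0,4,4] none 5 ![.w 0, .w 1, .w 2, .w 3, .w 4], .w 2, .w 3, .w 4], .w 3, .w 4], .s 1 [3,3,1,5,5] none 4 ![.s 2 [2,1,0,5,5] none 4 ![.w 0, .w 1, .s 3 [0,0,0,4,4] none 5 ![.w 0, .w 1, .w 2, .w 3, .w 4], .w 3, .w 4], .w 1, .s 2 [1,1,1,5,5] none 4 ![.s 3 [0,0,0,4,4] none 5 ![.w 0, .w 1, .w 2, .w 3, .w 4], .w 1, .w 2, .w 3, .w 4], .w 3, .w 4], .s 1 [3,3,1,5,5] none 4 ![.s 2 [2,0,1,5,5] none 4 ![.w 0, .s 3 [0,0,0,4,4] none 5 ![.w 0, .w 1, .w 2, .w 3, .w 4], .w 2, .w 3, .w 4], .s 2 [1,1,1,5,5] none 4 ![.s 3 [0,0,0,4,4]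 none 5 ![.w 0, .w 1, .w 2, .w 3, .w 4], .w 1, .w 2, .w 3, .w 4], .w 2, .w 3, .w 4], .w 3, .w 4]),
  ([0,5,6,6,8], .s 0 [0,5,6,5,5] none 4 ![.s 1 [0,4,4,4,4] none 5 ![.w 0, .w 1, .w 2, .w 3, .w 4], .w 1, .w 2, .w 3, .w 4]),
  ([1,4,6,6,8], .s 0 [1,4,6,5,5] none 4 ![.s 1 [0,4,4,4,4] none 5 ![.w 0, .w 1, .w 2, .w 3, .w 4], .s 1 [1,1,5,5,5] none 4 ![.s 2 [0,0,4,4,4] none 5 ![.w 0, .w 1, .w 2, .w 3, .w 4], .w 1, .w 2, .w 3, .w 4], .w 2, .w 3, .w 4]),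
  ([2,3,6,6,8], .s 0 [2,3,6,5,5] none 4 ![.s 1 [2,0,5,5,5] none 4 ![.w 0, .s 2 [0,0,4,4,4] none 5 ![.w 0, .w 1, .w 2, .w 3, .w 4], .w 2, .w 3, .w 4], .s 1 [1,1,5,5,5] none 4 ![.s 2 [0,0,4,4,4] none 5 ![.w 0, .w 1, .w 2, .w 3, .w 4], .w 1, .w 2, .w 3, .w 4], .w 2, .w 3, .w 4]),
  ([1,5,5,6,8], .s 0 [1,5,5,5,5] none 4 ![.s 1 [0,4,4,4,4] none 5 ![.w 0, .w 1, .w 2, .w 3, .w 4], .w 1, .w 2, .w 3, .w 4]),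
  ([2,4,5,6,8], .s 0 [2,4,5,5,5] none 4 ![.s 1 [0,4,4,4,4] none 5 ![.w 0, .w 1, .w 2, .w 3, .w 4], .s 1 [1,1,5,5,5] none 4 ![.s 2 [0,0,4,4,4] none 5 ![.w 0, .w 1, .w 2, .w 3, .w 4], .w 1, .w 2, .w 3, .w 4], .w 2, .w 3, .w 4]),
  ([3,3,5,6,8], .s 0 [3,3,5,5,5] none 4 ![.s 1 [2,0,5,5,5] none 4 ![.w 0, .s 2 [0,0,4,4,4] none 5 ![.w 0, .w 1, .w 2, .w 3, .w 4], .w 2, .w 3, .w 4], .s 1 [1,1,5,5,5] none 4 ![.s 2 [0,0,4,4,4] none 5 ![.w 0, .w 1, .w 2, .w 3, .w 4], .w 1, .w 2, .w 3, .w 4], .w 2, .w 3, .w 4]),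
  ([3,4,4,6,8], .s 0 [3,4,4,5,5] none 4 ![.s 1 [0,4,4,4,4] none 5 ![.w 0, .w 1, .w 2, .w 3, .w 4], .s 1 [3,3,1,5,5] none 4 ![.s 2 [2,1,0,5,5] none 4 ![.w 0, .w 1, .s 3 [0,0,0,4,4] none 5 ![.w 0, .w 1, .w 2, .w 3, .w 4], .w 3, .w 4], .w 1, .s 2 [1,1,1,5,5] none 4 ![.s 3 [0,0,0,4,4] none 5 ![.w 0, .w 1, .w 2, .w 3, .w 4], .w 1, .w 2, .w 3, .w 4], .w 3, .w 4], .s 1 [3,3,1,5,5] none 4 ![.s 2 [2,0,1,5,5] none 4 ![.w 0, .s 3 [0,0,0,4,4] none 5 ![.w 0, .w 1, .w 2, .w 3, .w 4], .w 2, .w 3, .w 4], .s 2 [1,1,1,5,5] none 4 ![.s 3 [0,0,0,4,4] none 5 ![.w 0, .w 1, .w 2, .w 3, .w 4], .w 1, .w 2, .w 3, .w 4], .w 2, .w 3, .w 4], .w 3, .w 4]),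
  ([2,5,5,5,8], .s 0 [1,5,5,5,5] none 4 ![.s 1 [0,4,4,4,4] none 5 ![.w 0, .w 1, .w 2, .w 3, .w 4], .w 1, .w 2, .w 3, .w 4]),
  ([3,4,5,5,8], .s 0 [3,3,5,5,5] none 4 ![.s 1 [2,0,5,5,5] none 4 ![.w 0, .s 2 [0,0,4,4,4] none 5 ![.w 0, .w 1, .w 2, .w 3, .w 4], .w 2, .w 3, .w 4], .s 1 [1,1,5,5,5] none 4 ![.s 2 [0,0,4,4,4] none 5 ![.w 0, .w 1, .w 2, .w 3, .w 4], .w 1, .w 2, .w 3, .w 4], .w 2, .w 3, .w 4]),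
  ([4,4,4,5,8], .s 0 [4,4,4,4,4] none 5 ![.w 0, .w 1, .w 2, .w 3, .w 4]),
  ([0,4,7,7,7], .s 0 [0,4,7,5,5] none 4 ![.s 1 [0,4,4,4,4] none 5 ![.w 0, .w 1, .w 2, .w 3, .w 4], .s 1 [0,2,5,5,5] none 4 ![.s 2 [0,0,4,4,4] none 5 ![.w 0, .w 1, .w 2, .w 3, .w 4], .w 1, .w 2, .w 3, .w 4], .w 2, .w 3, .w 4]),
  ([1,3,7,7,7], .s 0 [1,3,7,5,5] none 4 ![.s 1 [1,1,5,5,5] none 4 ![.w 0, .s 2 [0,0,4,4,4] none 5 ![.w 0, .w 1, .w 2, .w 3, .w 4], .w 2, .w 3, .w 4], .s 1 [1,1,5,5,5] none 4 ![.s 2 [0,0,4,4,4] none 5 ![.w 0, .w 1, .w 2, .w 3, .w 4], .w 1, .w 2, .w 3, .w 4], .w 2, .w 3, .w 4]),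
  ([2,2,7,7,7], .s 0 [2,2,7,5,5] none 4 ![.s 1 [2,0,5,5,5] none 4 ![.w 0, .s 2 [0,0,4,4,4] none 5 ![.w 0, .w 1, .w 2, .w 3, .w 4], .w 2, .w 3, .w 4], .s 1 [1,1,5,5,5] none 4 ![.s 2 [0,0,4,4,4] none 5 ![.w 0, .w 1, .w 2, .w 3, .w 4], .w 1, .w 2, .w 3, .w 4], .w 2, .w 3, .w 4]),
  ([0,5,6,7,7], .s 0 [0,5,6,5,5] none 4 ![.s 1 [0,4,4,4,4] none 5 ![.w 0, .w 1, .w 2, .w 3, .w 4], .w 1, .w 2, .w 3, .w 4]),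
  ([1,4,6,7,7], .s 0 [1,4,6,5,5] none 4 ![.s 1 [0,4,4,4,4] none 5 ![.w 0, .w 1, .w 2, .w 3, .w 4], .s 1 [1,1,5,5,5] none 4 ![.s 2 [0,0,4,4,4] none 5 ![.w 0, .w 1, .w 2, .w 3, .w 4], .w 1, .w 2, .w 3, .w 4], .w 2, .w 3, .w 4]),
  ([2,3,6,7,7], .s 0 [2,3,6,5,5] none 4 ![.s 1 [2,0,5,5,5] none 4 ![.w 0, .s 2 [0,0,4,4,4] none 5 ![.w 0, .w 1, .w 2, .w 3, .w 4], .w 2, .w 3, .w 4], .s 1 [1,1,5,5,5] none 4 ![.s 2 [0,0,4,4,4] none 5 ![.w 0, .w 1, .w 2, .w 3, .w 4], .w 1, .w 2, .w 3, .w 4], .w 2, .w 3, .w 4]),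
  ([1,5,5,7,7], .s 0 [1,5,5,5,5] none 4 ![.s 1 [0,4,4,4,4] none 5 ![.w 0, .w 1, .w 2, .w 3, .w 4], .w 1, .w 2, .w 3, .w 4]),
  ([2,4,5,7,7], .s 0 [2,4,5,5,5] none 4 ![.s 1 [0,4,4,4,4] none 5 ![.w 0, .w 1, .w 2, .w 3, .w 4], .s 1 [1,1,5,5,5] none 4 ![.s 2 [0,0,4,4,4] none 5 ![.w 0, .w 1, .w 2, .w 3, .w 4], .w 1, .w 2, .w 3, .w 4], .w 2, .w 3, .w 4]),
  ([3,3,5,7,7], .s 0 [3,3,5,5,5] none 4 ![.s 1 [2,0,5,5,5] none 4 ![.w 0, .s 2 [0,0,4,4,4] none 5 ![.w 0, .w 1, .w 2, .w 3, .w 4], .w 2, .w 3, .w 4], .s 1 [1,1,5,5,5] none 4 ![.s 2 [0,0,4,4,4] none 5 ![.w 0, .w 1, .w 2, .w 3, .w 4], .w 1, .w 2, .w 3, .w 4], .w 2, .w 3, .w 4]),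
  ([3,4,4,7,7], .s 0 [3,4,4,5,5] none 4 ![.s 1 [0,4,4,4,4] none 5 ![.w 0, .w 1, .w 2, .w 3, .w 4], .s 1 [3,3,1,5,5] none 4 ![.s 2 [2,1,0,5,5] none 4 ![.w 0, .w 1, .s 3 [0,0,0,4,4] none 5 ![.w 0, .w 1, .w 2, .w 3, .w 4], .w 3, .w 4], .w 1, .s 2 [1,1,1,5,5] none 4 ![.s 3 [0,0,0,4,4] none 5 ![.w 0, .w 1, .w 2, .w 3, .w 4], .w 1, .w 2, .w 3, .w 4], .w 3, .w 4], .s 1 [3,3,1,5,5] none 4 ![.s 2 [2,0,1,5,5] none 4 ![.w 0, .s 3 [0,0,0,4,4] none 5 ![.w 0, .w 1, .w 2, .w 3, .w 4], .w 2, .w 3, .w 4], .s 2 [1,1,1,5,5] none 4 ![.s 3 [0,0,0,4,4] none 5 ![.w 0, .w 1, .w 2, .w 3, .w 4], .w 1, .w 2, .w 3, .w 4], .w 2, .w 3, .w 4], .w 3, .w 4]),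
  ([0,6,6,6,7], .s 0 [0,6,5,5,5] none 4 ![.s 1 [0,4,4,4,4] none 5 ![.w 0, .w 1, .w 2, .w 3, .w 4], .w 1, .w 2, .w 3, .w 4]),
  ([1,5,6,6,7], .s 0 [1,5,5,5,5] none 4 ![.s 1 [0,4,4,4,4] none 5 ![.w 0, .w 1, .w 2, .w 3, .w 4], .w 1, .w 2, .w 3, .w 4]),
  ([2,4,6,6,7], .s 0 [2,4,5,5,5] none 4 ![.s 1 [0,4,4,4,4] none 5 ![.w 0, .w 1, .w 2, .w 3, .w 4], .s 1 [1,1,5,5,5] none 4 ![.s 2 [0,0,4,4,4] none 5 ![.w 0, .w 1, .w 2, .w 3, .w 4], .w 1, .w 2, .w 3, .w 4], .w 2, .w 3, .w 4]),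
  ([3,3,6,6,7], .s 0 [3,3,5,5,5] none 4 ![.s 1 [2,0,5,5,5] none 4 ![.w 0, .s 2 [0,0,4,4,4] none 5 ![.w 0, .w 1, .w 2, .w 3, .w 4], .w 2, .w 3, .w 4], .s 1 [1,1,5,5,5] none 4 ![.s 2 [0,0,4,4,4] none 5 ![.w 0, .w 1, .w 2, .w 3, .w 4], .w 1, .w 2, .w 3, .w 4], .w 2, .w 3, .w 4]),
  ([2,5,5,6,7], .s 0 [1,5,5,5,5] none 4 ![.s 1 [0,4,4,4,4] none 5 ![.w 0, .w 1, .w 2, .w 3, .w 4], .w 1, .w 2, .w 3, .w 4]),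
  ([3,4,5,6,7], .s 0 [3,3,5,5,5] none 4 ![.s 1 [2,0,5,5,5] none 4 ![.w 0, .s 2 [0,0,4,4,4] none 5 ![.w 0, .w 1, .w 2, .w 3, .w 4], .w 2, .w 3, .w 4], .s 1 [1,1,5,5,5] none 4 ![.s 2 [0,0,4,4,4] none 5 ![.w 0, .w 1, .w 2, .w 3, .w 4], .w 1, .w 2, .w 3, .w 4], .w 2, .w 3, .w 4]),
  ([4,4,4,6,7], .s 0 [4,4,4,4,4] none 5 ![.w 0, .w 1, .w 2, .w 3, .w 4]),
  ([3,5,5,5,7], .s 0 [1,5,5,5,5] none 4 ![.s 1 [0,4,4,4,4] none 5 ![.w 0, .w 1, .w 2, .w 3, .w 4], .w 1, .w 2, .w 3, .w 4]),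
  ([4,4,5,5,7], .s 0 [4,4,4,4,4] none 5 ![.w 0, .w 1, .w 2, .w 3, .w 4]),
  ([1,6,6,6,6], .s 0 [1,5,5,5,5] none 4 ![.s 1 [0,4,4,4,4] none 5 ![.w 0, .w 1, .w 2, .w 3, .w 4], .w 1, .w 2, .w 3, .w 4]),
  ([2,5,6,6,6], .s 0 [1,5,5,5,5] none 4 ![.s 1 [0,4,4,4,4] none 5 ![.w 0, .w 1, .w 2, .w 3, .w 4], .w 1, .w 2, .w 3, .w 4]),
  ([3,4,6,6,6], .s 0 [3,3,5,5,5] none 4 ![.s 1 [2,0,5,5,5] none 4 ![.w 0, .s 2 [0,0,4,4,4] none 5 ![.w 0, .w 1, .w 2, .w 3, .w 4], .w 2, .w 3, .w 4], .s 1 [1,1,5,5,5] none 4 ![.s 2 [0,0,4,4,4] none 5 ![.w 0, .w 1, .w 2, .w 3, .w 4], .w 1, .w 2, .w 3, .w 4], .w 2, .w 3, .w 4]),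
  ([3,5,5,6,6], .s 0 [1,5,5,5,5] none 4 ![.s 1 [0,4,4,4,4] none 5 ![.w 0, .w 1, .w 2, .w 3, .w 4], .w 1, .w 2, .w 3, .w 4]),
  ([4,4,5,6,6], .s 0 [4,4,4,4,4] none 5 ![.w 0, .w 1, .w 2, .w 3, .w 4]),
  ([4,5,5,5,6], .s 0 [4,4,4,4,4] none 5 ![.w 0, .w 1, .w 2, .w 3, .w 4]),
  ([5,5,5,5,5], .s 0 [4,4,4,4,4] none 5 ![.w 0, .w 1, .w 2, .w 3, .w 4])]

theorem CG3 (u : Fin 3 → ℕ) (hu : ∑ i, u i = 3 * 3) : CG 3 3 5 2 u (fun _ => 3) [] :=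
  CG_all cert3 (by decide +kernel) u hu

theorem CG4 (u : Fin 4 → ℕ) (hu : ∑ i, u i = 4 * 4) : CG 4 4 7 3 u (fun _ => 4) [] :=
  CG_all cert4 (by decide +kernel) u hu

theorem CG5 (u : Fin 5 → ℕ) (hu : ∑ i, u i = 5 * 5) : CG 5 5 9 5 u (fun _ => 5) [] :=
  CG_all cert5 (by decide +kernel) u hu

end H92LB
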