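import Pool.Agent.Helper92.LBGame

namespace H92LB

/-- Strategy trees of the adversary of the counting game. `w i`: machine `i` already has load `T`.
`s r l o c ts`: reduce the unit tasks to `l` (all removed units were planned for offline machine
`r`), remove the large task with index `o` (if any), present a task of size `c` planned for offline
machine `r`; continue with `ts i` if it is put on machine `i`. -/
inductive Tr (n : ℕ) where
  | w : Fin n → Tr n
  | s : Fin n → List ℕ → Option ℕ → ℕ → (Fin n → Tr n) → Tr n

def fn (n : ℕ) (l : List ℕ) : Fin n → ℕ := fun i => l.getD i 0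

def sm (n : ℕ) (f : Fin n → ℕ) : ℕ := ((List.finRange n).map f).sum

def era {α : Type} (L : List α) : Option ℕ → List α
  | none => L
  | some t => L.eraseIdx t

def check (n cap T : ℕ) : ℕ → Tr n → (Fin n → ℕ) → (Fin n → ℕ) → List (ℕ × Fin n × Fin n) → Bool
  | _, Tr.w i, u, _, L =>
    decide (T ≤ u i + ((L.filter fun p => decide (p.2.1 = i)).map fun p => p.1).sum)
  | 0, Tr.s _ _ _ _ _, _, _, _ => false
  | d + 1, Tr.s r l o c ts, u, q, L =>
    decide (∀ i, fn n l i ≤ u i) && (decide (sm n u - sm n (fn n l) ≤ q r) && (decide (1 ≤ c) &&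
      (decide (c + (q r - (sm n u - sm n (fn n l))) +
        (((era L o).filter fun p => decide (p.2.2 = r)).map fun p => p.1).sum ≤ cap) &&
      decide (∀ i : Fin n, check n cap T d (ts i) (fn n l)
        (Function.update q r (q r - (sm n u - sm n (fn n l)))) ((c, i, r) :: era L o) = true))))

theorem CG.units {n cap T d : ℕ} {u' : Fin n → ℕ} {L : List (ℕ × Fin n × Fin n)} (r : Fin n)
    (x : ℕ) : ∀ (u q : Fin n → ℕ), (∀ i, u' i ≤ u i) → ∑ i, u i = ∑ i, u' i + x → x ≤ q r →
      CG n cap T d u' (Function.update q r (q r - x)) L → CG n cap T d u q L := by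
  induction x with
  | zero =>
    intro u q hle hs _ h
    have hu : u' = u := by
      funext i
      by_contra hne
      have hlt : u' i < u i := lt_of_le_of_ne (hle i) hne
      have := Finset.sum_lt_sum (s := Finset.univ) (fun j _ => hle j) ⟨i, Finset.mem_univ _, hlt⟩
      omega
    have hq : Function.update q r (q r - 0) = q := by simp
    rw [hq, hu] at h
    exact h
  | succ x ih =>
    intro u q hle hs hx h
    have hex : ∃ i, u' i < u i := by
      by_contra hcon
      push Not at hcon
      have : ∑ i, u i ≤ ∑ i, u' i := Finset.sum_le_sum fun i _ => hcon i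
      omega
    obtain ⟨i, hi⟩ := hex
    refine CG.unit i r (by omega) (by omega) (ih _ _ ?_ ?_ ?_ ?_)
    · intro j
      by_cases hj : j = i
      · subst hj
        simp
        omega
      · simp [Function.update_of_ne hj, hle j]
    · have h1 := Finset.sum_update_of_mem (Finset.mem_univ i) u (u i - 1)
      have h2 := Finset.add_sum_erase Finset.univ u (Finset.mem_univ i)
      rw [Finset.sdiff_singleton_eq_erase] at h1
      omega
    · simp
      omega
    · have : Function.update (Function.update q r (q r - 1)) r
          (Function.update q r (q r - 1) r - x) = Function.update q r (q r - (x + 1)) := by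
        simp only [Function.update_self, Function.update_idem]
        congr 1
        omega
      rw [this]
      exact h

theorem CG.era {n cap T d : ℕ} {u q : Fin n → ℕ} {L : List (ℕ × Fin n × Fin n)} (o : Option ℕ)
    (h : CG n cap T d u q (era L o)) : CG n cap T d u q L := by
  cases o with
  | none => exact h
  | some t =>
    by_cases ht : t < L.length
    · have h1 : L = L.take t ++ L[t] :: L.drop (t + 1) := by
        rw [← List.drop_eq_getElem_cons ht, List.take_append_drop]
      have h2 : H92LB.era L (some t) = L.take t ++ L.drop (t + 1) := by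
        simp [H92LB.era, List.eraseIdx_eq_take_drop_succ]
      rw [h2] at h
      rw [h1]
      exact CG.chunk _ _ _ h
    · have h2 : H92LB.era L (some t) = L := by
        simp only [H92LB.era]
        exact List.eraseIdx_of_length_le (by omega)
      rw [h2] at h
      exact h

theorem sm_eq (n : ℕ) (f : Fin n → ℕ) : sm n f = ∑ i, f i := by
  rw [sm, Fin.sum_univ_def]

theorem check_sound {n cap T : ℕ} : ∀ (d : ℕ) (t : Tr n) (u q : Fin n → ℕ)
    (L : List (ℕ × Fin n × Fin n)), check n cap T d t u q L = true → CG n cap T d u q L := by
  intro d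
  induction d with
  | zero =>
    intro t u q L h
    cases t with
    | w i => exact CG.win i (by simpa [check] using h)
    | s r l o c ts => simp [check] at h
  | succ d ih =>
    intro t u q L h
    cases t with
    | w i => exact CG.win i (by simpa [check] using h)
    | s r l o c ts =>
      rw [check] at h
      simp only [Bool.and_eq_true, decide_eq_true_eq] at h
      obtain ⟨h1, h2, h3, h4, h5⟩ := h
      rw [sm_eq, sm_eq] at h2 h4
      simp only [sm_eq] at h5
      have hle : ∑ i, fn n l i ≤ ∑ i, u i := Finset.sum_le_sum fun i _ => h1 i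
      refine CG.units (u' := fn n l) r (∑ i, u i - ∑ i, fn n l i) u q h1 (by omega) h2 ?_
      refine CG.era o ?_
      refine CG.arr c r h3 ?_ fun i => ih _ _ _ _ (h5 i)
      simpa using h4

theorem CG_perm {n cap T d : ℕ} {u q : Fin n → ℕ} {L : List (ℕ × Fin n × Fin n)}
    (h : CG n cap T d u q L) (σ : Equiv.Perm (Fin n)) :
    CG n cap T d (fun i => u (σ i)) q (L.map fun p => (p.1, σ.symm p.2.1, p.2.2)) := by
  induction h with
  | @win d u q L i hi =>
    refine CG.win (σ.symm i) ?_
    rw [List.filter_map, List.map_map]
    have h1 : (fun p : ℕ × Fin n × Fin n => decide (p.2.1 = σ.symm i)) ∘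
        (fun p : ℕ × Fin n × Fin n => (p.1, σ.symm p.2.1, p.2.2)) =
        fun p : ℕ × Fin n × Fin n => decide (p.2.1 = i) := by
      funext p
      simp
    rw [h1]
    simpa [Function.comp_def] using hi
  | @unit d u q L i r hi hr _ ih =>
    refine CG.unit (σ.symm i) r (by simpa using hi) hr ?_
    have h1 : Function.update (fun i => u (σ i)) (σ.symm i) ((fun i => u (σ i)) (σ.symm i) - 1) =
        fun j => Function.update u i (u i - 1) (σ j) := by
      funext j
      by_cases hj : j = σ.symm i
      · subst hj
        simp
      · have : σ j ≠ i := fun hc => hj (by rw [← hc, Equiv.symm_apply_apply])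
        simp [Function.update_of_ne hj, Function.update_of_ne this]
    rw [h1]
    exact ih
  | @chunk d u q L₁ p L₂ _ ih =>
    rw [List.map_append] at ih ⊢
    rw [List.map_cons]
    exact CG.chunk _ _ _ ih
  | @arr d u q L c r hc hfit _ ih =>
    refine CG.arr c r hc ?_ fun i => ?_
    · rw [List.filter_map, List.map_map]
      exact hfit
    · have := ih (σ i)
      simpa using this

/-- all sorted lists `acc.reverse ++ l` with `l` of length `k`, entries in `[lo, T)`, sum `s` -/
def allS (T : ℕ) (P : List ℕ → Bool) : ℕ → ℕ → ℕ → List ℕ → Bool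
  | 0, _, s, acc => !(s == 0) || P acc.reverse
  | k + 1, lo, s, acc =>
    (List.range T).all fun x => !(Nat.ble lo x && Nat.ble x s) || allS T P k x (s - x) (x :: acc)

theorem allS_sound {T : ℕ} {P : List ℕ → Bool} : ∀ (k lo s : ℕ) (acc : List ℕ),
    allS T P k lo s acc = true → ∀ l : List ℕ, l.length = k → (∀ x ∈ l, lo ≤ x ∧ x < T) →
      l.Pairwise (· ≤ ·) → l.sum = s → P (acc.reverse ++ l) = true := by
  intro k
  induction k with
  | zero =>
    intro lo s acc h l hl _ _ hs
    have : l = [] := List.length_eq_zero_iff.mp hl
    subst this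
    have hs0 : s = 0 := by simpa using hs.symm
    subst hs0
    simpa [allS] using h
  | succ k ih =>
    intro lo s acc h l hl hb hp hs
    cases l with
    | nil => simp at hl
    | cons x l =>
      rw [allS, List.all_eq_true] at h
      have hx := hb x (by simp)
      have h1 := h x (List.mem_range.mpr hx.2)
      simp only [List.sum_cons] at hs
      have h2 : (Nat.ble lo x && Nat.ble x s) = true := by
        simp only [Bool.and_eq_true, Nat.ble_eq]
        exact ⟨hx.1, by omega⟩
      rw [h2] at h1
      simp only [Bool.not_true, Bool.false_or] at h1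
      rw [List.pairwise_cons] at hp
      have := ih x (s - x) (x :: acc) h1 l (by simpa using hl)
        (fun y hy => ⟨hp.1 y hy, (hb y (by simp [hy])).2⟩) hp.2 (by omega)
      simpa using this

theorem CG_all {n cap T d : ℕ} (cert : List (List ℕ × Tr n))
    (hall : allS T (fun l => cert.any fun p => (p.1 == l) &&
      check n cap T d p.2 (fn n l) (fun _ => cap) []) n 0 (n * cap) [] = true)
    (u : Fin n → ℕ) (hu : ∑ i, u i = n * cap) : CG n cap T d u (fun _ => cap) [] := by
  by_cases hbig : ∃ i, T ≤ u i
  · obtain ⟨i, hi⟩ := hbig
    exact CG.win i (by simpa using hi)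
  push Not at hbig
  have hmono := Tuple.monotone_sort u
  set σ := Tuple.sort u with hσ
  have key : CG n cap T d (u ∘ σ) (fun _ => cap) [] := by
    have h1 := allS_sound n 0 (n * cap) [] hall (List.ofFn (u ∘ σ)) (by simp) (by
      intro x hx
      rw [List.mem_ofFn] at hx
      obtain ⟨i, rfl⟩ := hx
      exact ⟨Nat.zero_le _, hbig _⟩) (by
      rw [List.pairwise_ofFn]
      intro i j hij
      exact hmono hij.le) (by
      rw [List.sum_ofFn, ← hu]
      exact Equiv.sum_comp σ u)
    simp only [List.reverse_nil, List.nil_append, List.any_eq_true, Bool.and_eq_true] at h1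
    obtain ⟨p, _, _, hp⟩ := h1
    have hfn : fn n (List.ofFn (u ∘ σ)) = u ∘ σ := by
      funext i
      simp [fn, List.getD_eq_getElem?_getD]
    rw [hfn] at hp
    exact check_sound _ _ _ _ _ hp
  have h2 := CG_perm key σ.symm
  simpa [Function.comp_def] using h2

end H92LB
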