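import Mathlib

universe u

open MeasureTheory
open scoped ENNReal

namespace H92LB

/-- An event of the input: a task of weight `w` arrives, or task number `k` departs.
Tasks are numbered `0, 1, 2, ...` in the order of their arrival. -/
inductive Ev where
  | arr (w : ℝ) : Ev
  | dep (k : ℕ) : Ev

/-- A finite sequence of events, the LATEST event is the head of the list. -/
abbrev Hist := List Ev

/-- Number of tasks that have arrived. -/
def num : Hist → ℕ
  | [] => 0
  | Ev.arr _ :: h => num h + 1
  | Ev.dep _ :: h => num h

/-- Task `k` has arrived and not departed. -/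
def Active : Hist → ℕ → Prop
  | [], _ => False
  | Ev.arr _ :: h, k => k = num h ∨ Active h k
  | Ev.dep j :: h, k => k ≠ j ∧ Active h k

/-- Weight of task `k`. -/
noncomputable def wt : Hist → ℕ → ℝ
  | [], _ => 0
  | Ev.arr w :: h, k => if k = num h then w else wt h k
  | Ev.dep _ :: h, k => wt h k

/-- Inputs: weights are positive and only active tasks depart. -/
def Valid : Hist → Prop
  | [] => True
  | Ev.arr w :: h => 0 < w ∧ Valid h
  | Ev.dep j :: h => Active h j ∧ Valid h

open Classical in
/-- Load of machine `i` after the events `h` if task `k` is assigned to machine `a k`. -/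
noncomputable def load {n : ℕ} (a : ℕ → Fin n) (h : Hist) (i : Fin n) : ℝ :=
  ∑ k ∈ Finset.range (num h), if Active h k ∧ a k = i then wt h k else 0

/-- Cost: the maximum load over all machines and all times. -/
noncomputable def cost {n : ℕ} (a : ℕ → Fin n) : Hist → ℝ
  | [] => 0
  | e :: h => max (cost a h) (⨆ i : Fin n, load a (e :: h) i)

/-- The offline optimum: least cost over all assignments. -/
noncomputable def opt (n : ℕ) (h : Hist) : ℝ := ⨅ a : ℕ → Fin n, cost a h

/-- The assignment produced by a deterministic online algorithm `A`: the task that arrives last in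
`Ev.arr w :: h` is put on machine `A (Ev.arr w :: h)`. -/
def run {n : ℕ} [NeZero n] (A : Hist → Fin n) : Hist → ℕ → Fin n
  | [], _ => 0
  | Ev.arr w :: h, k => if k = num h then A (Ev.arr w :: h) else run A h k
  | Ev.dep _ :: h, k => run A h k

/-- A randomised online algorithm on `n` machines: a random deterministic online algorithm. -/
structure RandAlg (n : ℕ) where
  Ω : Type u
  mΩ : MeasurableSpace Ω
  μ : Measure Ω
  prob : IsProbabilityMeasure μ
  A : Ω → Hist → Fin n
  meas : ∀ h, Measurable fun ω => A ω h

/-- `c`-competitive against oblivious adversaries: the expected cost is at most `c * OPT`. -/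
def RandAlg.Competitive {n : ℕ} [NeZero n] (R : RandAlg.{u} n) (c : ℝ) : Prop :=
  ∀ h : Hist, Valid h →
    @lintegral R.Ω R.mΩ R.μ (fun ω => ENNReal.ofReal (cost (run (R.A ω) h) h)) ≤
      ENNReal.ofReal (c * opt n h)

/-- All tasks of `h` have departed, and the offline optimum of `h` is at most `1`. -/
def Start (n : ℕ) (h : Hist) : Prop :=
  Valid h ∧ (∀ k, ¬ Active h k) ∧ ∃ b : ℕ → Fin n, cost b h ≤ 1

/-- The adversary (who sees the choices made for the tasks with numbers at least `N`) can force cost
`T` with at most `d` further arrivals, keeping the offline optimum at most `1`. -/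
inductive Good (n : ℕ) (T : ℝ) (N : ℕ) : ℕ → Hist → (ℕ → Fin n) → Prop
  | fin {d : ℕ} {h : Hist} {a : ℕ → Fin n} : Start n h →
      (∀ a' : ℕ → Fin n, (∀ k, N ≤ k → k < num h → a' k = a k) → T ≤ cost a' h) → Good n T N d h a
  | dep {d : ℕ} {h : Hist} {a : ℕ → Fin n} (j : ℕ) :
      Good n T N d (Ev.dep j :: h) a → Good n T N d h a
  | arr {d : ℕ} {h : Hist} {a : ℕ → Fin n} (w : ℝ) :
      (∀ i : Fin n, Good n T N d (Ev.arr w :: h) (Function.update a (num h) i)) →
      Good n T N (d + 1) h a

end H92LB
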