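import Pool.Agent.Helper92.LBGen

open MeasureTheory
open scoped ENNReal

namespace H92LB

/-- The counting game on `n` machines of capacity `cap` (in units), target `T`. State: `u i` unit
tasks on machine `i`; `q r` unit tasks reserved in the offline plan for machine `r`; a list of large
tasks (size, machine, offline machine). `d` bounds the number of further arrivals. -/
inductive CG (n cap T : ℕ) : ℕ → (Fin n → ℕ) → (Fin n → ℕ) → List (ℕ × Fin n × Fin n) → Prop
  | win {d : ℕ} {u q : Fin n → ℕ} {L : List (ℕ × Fin n × Fin n)} (i : Fin n) :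
      T ≤ u i + ((L.filter fun p => decide (p.2.1 = i)).map fun p => p.1).sum → CG n cap T d u q L
  | unit {d : ℕ} {u q : Fin n → ℕ} {L : List (ℕ × Fin n × Fin n)} (i r : Fin n) : 0 < u i →
      0 < q r → CG n cap T d (Function.update u i (u i - 1)) (Function.update q r (q r - 1)) L →
      CG n cap T d u q L
  | chunk {d : ℕ} {u q : Fin n → ℕ} (L₁ : List (ℕ × Fin n × Fin n)) (p : ℕ × Fin n × Fin n)
      (L₂ : List (ℕ × Fin n × Fin n)) : CG n cap T d u q (L₁ ++ L₂) →
      CG n cap T d u q (L₁ ++ p :: L₂)
  | arr {d : ℕ} {u q : Fin n → ℕ} {L : List (ℕ × Fin n × Fin n)} (c : ℕ) (r : Fin n) : 1 ≤ c →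
      c + q r + ((L.filter fun p => decide (p.2.2 = r)).map fun p => p.1).sum ≤ cap →
      (∀ i, CG n cap T d u q ((c, i, r) :: L)) → CG n cap T (d + 1) u q L

/-- The history `h` with the choices `a` realises the state `(u, q, L)` of the counting game, and
every completion of the offline plan keeps the offline cost at most `1`. -/
def Inv (n cap N : ℕ) (h : Hist) (a : ℕ → Fin n) (u q : Fin n → ℕ)
    (L : List (ℕ × Fin n × Fin n)) : Prop :=
  ∃ (U : Finset ℕ) (ch : List ℕ) (cs : ℕ → ℕ) (τ : ℕ → Fin n),
    Valid h ∧ N ≤ num h ∧ ch.Nodup ∧ (∀ k ∈ ch, k ∉ U) ∧ L = ch.map (fun k => (cs k, a k, τ k)) ∧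
    (∀ k, Active h k ↔ k ∈ U ∨ k ∈ ch) ∧
    (∀ k ∈ U, N ≤ k ∧ k < num h ∧ wt h k = 1 / cap) ∧
    (∀ k ∈ ch, N ≤ k ∧ k < num h ∧ wt h k = cs k / cap) ∧
    (∀ i, (U.filter fun k => a k = i).card = u i) ∧
    U.card = ∑ r, q r ∧
    (∀ φ : ℕ → Fin n, (∀ k, k ∉ U → φ k = τ k) →
      (∀ i, (U.filter fun k => φ k = i).card = q i) → cost φ h ≤ 1)

/-- remove the tasks of the list `l` one after the other -/
def deps (l : List ℕ) (h : Hist) : Hist := l.map Ev.dep ++ h

/-- `m` tasks of weight `1 / cap` arrive -/
noncomputable def flood (cap : ℕ) (m : ℕ) (h : Hist) : Hist :=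
  List.replicate m (Ev.arr (1 / cap)) ++ h

theorem Good.deps' {n : ℕ} {T : ℝ} {N d : ℕ} {a : ℕ → Fin n} (l : List ℕ) :
    ∀ h : Hist, Good n T N d (deps l h) a → Good n T N d h a := by
  induction l with
  | nil => intro h hg; exact hg
  | cons j l ih =>
    intro h hg
    apply ih h
    exact Good.dep j hg

theorem flood_good {n : ℕ} {T : ℝ} {N d cap : ℕ} (m : ℕ) :
    ∀ (h : Hist) (a : ℕ → Fin n), (∀ a' : ℕ → Fin n, Good n T N d (flood cap m h) a') →
      Good n T N (d + m) h a := by
  induction m with
  | zero => intro h a hg; exact hg a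
  | succ m ih =>
    intro h a hg
    have e : flood cap (m + 1) h = flood cap m (Ev.arr (1 / cap) :: h) := by
      unfold flood
      rw [List.replicate_succ', List.append_assoc]
      rfl
    rw [e] at hg
    exact Good.arr (1 / (cap : ℝ)) (fun i => ih _ _ hg)

theorem load_le_cost {n : ℕ} (a : ℕ → Fin n) (h : Hist) (i : Fin n) : load a h i ≤ cost a h := by
  cases h with
  | nil => simp [load, cost, num]
  | cons e h =>
    unfold cost
    exact le_max_of_le_right (le_ciSup (f := fun i : Fin n => load a (e :: h) i)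
      (Set.finite_range _).bddAbove i)

theorem load_arr {n : ℕ} (a : ℕ → Fin n) (h : Hist) (hact : ∀ k, Active h k → k < num h) (w : ℝ)
    (i : Fin n) : load a (Ev.arr w :: h) i = load a h i + if a (num h) = i then w else 0 := by
  classical
  unfold load
  simp only [num]
  rw [Finset.sum_range_succ]
  congr 1
  · apply Finset.sum_congr rfl
    intro k hk
    have hk' : k ≠ num h := by
      have := Finset.mem_range.1 hk
      omega
    simp [Active, wt, hk']
  · simp [Active, wt]

theorem active_lt {h : Hist} (hv : Valid h) {k : ℕ} (hk : Active h k) : k < num h := by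
  induction h with
  | nil => exact hk.elim
  | cons e h ih =>
    cases e with
    | arr w =>
      simp only [Active] at hk
      simp only [num]
      rcases hk with hk | hk
      · omega
      · have := ih hv.2 hk
        omega
    | dep j =>
      simp only [Active] at hk
      simp only [num]
      exact ih hv.2 hk.2

theorem wt_pos_aux {h : Hist} (hv : Valid h) {k : ℕ} (hk : k < num h) : 0 < wt h k := by
  induction h with
  | nil => simp [num] at hk
  | cons e h ih =>
    cases e with
    | arr w =>
      simp only [num] at hk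
      simp only [wt]
      split_ifs with hh
      · exact hv.1
      · exact ih hv.2 (by omega)
    | dep j =>
      simp only [num] at hk
      simp only [wt]
      exact ih hv.2 hk

theorem cost_dep_le {n : ℕ} (hn : 0 < n) (a : ℕ → Fin n) {h : Hist} (hv : Valid h) {j : ℕ}
    (hj : Active h j) : cost a (Ev.dep j :: h) ≤ cost a h := by
  classical
  haveI : Nonempty (Fin n) := ⟨⟨0, hn⟩⟩
  have e : cost a (Ev.dep j :: h) = max (cost a h) (⨆ i : Fin n, load a (Ev.dep j :: h) i) := rfl
  rw [e]
  apply max_le le_rfl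
  apply ciSup_le
  intro i
  refine le_trans ?_ (load_le_cost a h i)
  unfold load
  simp only [num]
  apply Finset.sum_le_sum
  intro k hk
  have hk' := Finset.mem_range.1 hk
  have hp := wt_pos_aux hv hk'
  simp only [Active, wt]
  by_cases h1 : a k = i
  · by_cases h2 : Active h k
    · by_cases h3 : k = j
      · subst h3
        simp only [ne_eq, not_true_eq_false, false_and, if_false, h2, h1, and_self, if_true]
        exact hp.le
      · simp [h1, h2, h3]
    · simp [h2]
  · simp [h1]

theorem exists_fiber {n : ℕ} (U : Finset ℕ) (τ : ℕ → Fin n) (q : Fin n → ℕ)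
    (hq : U.card = ∑ i, q i) :
    ∃ φ : ℕ → Fin n, (∀ k, k ∉ U → φ k = τ k) ∧ ∀ i, (U.filter fun k => φ k = i).card = q i := by
  induction U using Finset.induction_on generalizing q with
  | empty =>
    refine ⟨τ, fun _ _ => rfl, fun i => ?_⟩
    rw [Finset.card_empty] at hq
    have := (Finset.sum_eq_zero_iff.mp hq.symm) i (Finset.mem_univ i)
    simp [this]
  | insert a U ha ih =>
    rw [Finset.card_insert_of_notMem ha] at hq
    obtain ⟨i, hi⟩ : ∃ i, 0 < q i := by
      by_contra hcon
      push Not at hcon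
      have : ∑ i, q i = 0 := Finset.sum_eq_zero (fun i _ => Nat.le_zero.mp (hcon i))
      omega
    have hsum : U.card = ∑ l, (Function.update q i (q i - 1)) l := by
      have h1 : ∑ l, q l = q i + ∑ l ∈ Finset.univ.erase i, q l := by
        rw [Finset.add_sum_erase _ _ (Finset.mem_univ i)]
      have h2 : ∑ l, (Function.update q i (q i - 1)) l
          = (q i - 1) + ∑ l ∈ Finset.univ.erase i, q l := by
        rw [← Finset.add_sum_erase _ _ (Finset.mem_univ i), Function.update_self]
        congr 1
        apply Finset.sum_congr rfl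
        intro l hl
        rw [Function.update_of_ne (Finset.ne_of_mem_erase hl)]
      omega
    obtain ⟨φ, h1, h2⟩ := ih _ hsum
    refine ⟨Function.update φ a i, ?_, ?_⟩
    · intro k hk
      rw [Finset.mem_insert, not_or] at hk
      rw [Function.update_of_ne hk.1]
      exact h1 k hk.2
    · intro l
      have hU : (U.filter fun k => Function.update φ a i k = l) = U.filter fun k => φ k = l := by
        apply Finset.filter_congr
        intro k hk
        have : k ≠ a := fun h => ha (h ▸ hk)
        rw [Function.update_of_ne this]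
      rw [Finset.filter_insert, hU, Function.update_self]
      have h3 := h2 l
      by_cases hl : i = l
      · subst hl
        rw [if_pos rfl, Finset.card_insert_of_notMem (by simp [ha]), h3, Function.update_self]
        omega
      · rw [if_neg hl, h3, Function.update_of_ne (Ne.symm hl)]

/-- everything departs: the history becomes a `Start` -/
theorem finish_start {n : ℕ} (hn : 0 < n) {h : Hist} (hv : Valid h) (S : Finset ℕ)
    (hS : ∀ k, Active h k ↔ k ∈ S) (φ : ℕ → Fin n) (hφ : cost φ h ≤ 1) :
    ∃ l : List ℕ, Start n (deps l h) := by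
  induction hc : S.card generalizing S h with
  | zero =>
    have hS0 : S = ∅ := Finset.card_eq_zero.1 hc
    subst hS0
    refine ⟨[], hv, fun k hk => ?_, φ, hφ⟩
    exact absurd ((hS k).1 hk) (Finset.notMem_empty k)
  | succ m ih =>
    have hne : S.Nonempty := by
      rw [← Finset.card_pos]
      omega
    obtain ⟨j, hj⟩ := hne
    have hja : Active h j := (hS j).2 hj
    have hv1 : Valid (Ev.dep j :: h) := ⟨hja, hv⟩
    obtain ⟨l, hl⟩ := ih hv1 (S.erase j) (by
      intro k
      rw [Finset.mem_erase, ← hS k]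
      rfl) ((cost_dep_le hn φ hv hja).trans hφ) (by
      rw [Finset.card_erase_of_mem hj]
      omega)
    refine ⟨l ++ [j], ?_⟩
    have e : deps (l ++ [j]) h = deps l (Ev.dep j :: h) := by
      unfold deps
      simp
    rw [e]
    exact hl

theorem load_formula_aux (f : ℕ → ℝ) (cs : ℕ → ℕ) (cap : ℕ) (l : List ℕ)
    (hl : ∀ k ∈ l, f k = cs k / cap) : (l.map f).sum = (((l.map cs).sum : ℕ) : ℝ) / cap := by
  induction l with
  | nil => simp
  | cons x l ih =>
    rw [List.map_cons, List.sum_cons, List.map_cons, List.sum_cons,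
      ih (fun k hk => hl k (List.mem_cons_of_mem _ hk)), hl x List.mem_cons_self]
    push_cast
    ring

/-- the load of a machine in terms of the data of `Inv` (also for the offline assignment) -/
theorem load_formula {n cap : ℕ} {h : Hist} {a : ℕ → Fin n} {U : Finset ℕ} {ch : List ℕ}
    {cs : ℕ → ℕ} (hnd : ch.Nodup) (hdis : ∀ k ∈ ch, k ∉ U)
    (hact : ∀ k, Active h k ↔ k ∈ U ∨ k ∈ ch) (hU : ∀ k ∈ U, k < num h ∧ wt h k = 1 / cap)
    (hch : ∀ k ∈ ch, k < num h ∧ wt h k = cs k / cap) (i : Fin n) :
    load a h i = ((U.filter fun k => a k = i).card +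
      (((ch.filter fun k => decide (a k = i)).map cs).sum : ℕ) : ℝ) / cap := by
  classical
  have h1 : load a h i = ∑ k ∈ (U.filter fun k => a k = i) ∪
      (ch.filter fun k => decide (a k = i)).toFinset, wt h k := by
    unfold load
    rw [← Finset.sum_filter]
    apply Finset.sum_congr _ (fun _ _ => rfl)
    ext k
    rw [Finset.mem_filter, Finset.mem_range, Finset.mem_union, Finset.mem_filter,
      List.mem_toFinset, List.mem_filter, hact k]
    constructor
    · rintro ⟨_, hk | hk, hk2⟩
      · exact Or.inl ⟨hk, hk2⟩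
      · exact Or.inr ⟨hk, by simpa using hk2⟩
    · rintro (⟨hk, hk2⟩ | ⟨hk, hk2⟩)
      · exact ⟨(hU k hk).1, Or.inl hk, hk2⟩
      · exact ⟨(hch k hk).1, Or.inr hk, by simpa using hk2⟩
  have hd : Disjoint (U.filter fun k => a k = i) (ch.filter fun k => decide (a k = i)).toFinset := by
    rw [Finset.disjoint_left]
    intro k hk hk2
    rw [List.mem_toFinset, List.mem_filter] at hk2
    exact hdis k hk2.1 (Finset.mem_filter.1 hk).1
  rw [h1, Finset.sum_union hd, List.sum_toFinset _ (hnd.filter _),
    load_formula_aux (wt h) cs cap _ (fun k hk => (hch k (List.mem_filter.1 hk).1).2),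
    Finset.sum_congr rfl (fun k hk => (hU k (Finset.mem_filter.1 hk).1).2), Finset.sum_const,
    nsmul_eq_mul]
  ring

theorem inv_win {n cap N : ℕ} (hn : 0 < n) (hcap : 0 < cap) {h : Hist} {a : ℕ → Fin n}
    {u q : Fin n → ℕ} {L : List (ℕ × Fin n × Fin n)} (hI : Inv n cap N h a u q L) {T d : ℕ}
    (i : Fin n) (hT : T ≤ u i + ((L.filter fun p => decide (p.2.1 = i)).map fun p => p.1).sum) :
    Good n ((T : ℝ) / cap) N d h a := by
  obtain ⟨U, ch, cs, τ, hv, hN, hnd, hdis, hL, hact, hU, hch, hu, hUq, hφ⟩ := hI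
  obtain ⟨φ, hφ1, hφ2⟩ := exists_fiber U τ q hUq
  have hcost : cost φ h ≤ 1 := hφ φ hφ1 hφ2
  obtain ⟨l, hl⟩ := finish_start hn hv (U ∪ ch.toFinset) (fun k => by rw [hact k]; simp) φ hcost
  have hnum : ∀ l : List ℕ, num (deps l h) = num h := by
    intro l
    induction l with
    | nil => rfl
    | cons x l ih => exact ih
  refine Good.deps' l h (Good.fin hl ?_)
  intro a' ha'
  rw [hnum] at ha'
  have hload : (T:ℝ) / cap ≤ load a' h i := by
    rw [load_formula hnd hdis hact (fun k hk => (hU k hk).2) (fun k hk => (hch k hk).2) i]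
    have e1 : (U.filter fun k => a' k = i).card = u i := by
      rw [← hu i]
      congr 1
      refine Finset.filter_congr fun k hk => ?_
      rw [ha' k (hU k hk).1 (hU k hk).2.1]
    have e2 : ((ch.filter fun k => decide (a' k = i)).map cs).sum
        = ((L.filter fun p => decide (p.2.1 = i)).map fun p => p.1).sum := by
      rw [hL, List.filter_map, List.map_map]
      have e3 : (ch.filter fun k => decide (a' k = i))
          = ch.filter ((fun p : ℕ × Fin n × Fin n => decide (p.2.1 = i)) ∘
              fun k => (cs k, a k, τ k)) := by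
        refine List.filter_congr fun k hk => ?_
        simp only [Function.comp]
        rw [ha' k (hch k hk).1 (hch k hk).2.1]
      rw [e3]
      rfl
    rw [e1, e2]
    have hT' : (T:ℝ) ≤ (u i : ℝ) +
        ((((L.filter fun p => decide (p.2.1 = i)).map fun p => p.1).sum : ℕ) : ℝ) := by
      exact_mod_cast hT
    exact div_le_div_of_nonneg_right hT' (Nat.cast_nonneg cap)
  exact hload.trans ((load_le_cost a' h i).trans (cost_mono a' (List.suffix_append _ _)))

theorem fib_erase {n : ℕ} (U : Finset ℕ) (k : ℕ) (hk : k ∈ U) (f : ℕ → Fin n) (i : Fin n) :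
    (if f k = i then 1 else 0) + ((U.erase k).filter fun k => f k = i).card
      = (U.filter fun k => f k = i).card := by
  rw [Finset.card_filter, Finset.card_filter]
  exact Finset.add_sum_erase U (fun x => if f x = i then 1 else 0) hk

theorem inv_unit {n cap N : ℕ} (hn : 0 < n) {h : Hist} {a : ℕ → Fin n}
    {u q : Fin n → ℕ} {L : List (ℕ × Fin n × Fin n)} (hI : Inv n cap N h a u q L) (i r : Fin n)
    (hi : 0 < u i) (hr : 0 < q r) :
    ∃ k : ℕ, Inv n cap N (Ev.dep k :: h) a (Function.update u i (u i - 1))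
      (Function.update q r (q r - 1)) L := by
  obtain ⟨U, ch, cs, τ, hv, hN, hnd, hchU, hL, hact, hU, hch, hu, hq, hφ⟩ := hI
  have hne : (U.filter fun k => a k = i).Nonempty := by
    rw [← Finset.card_pos, hu i]
    exact hi
  obtain ⟨k, hk⟩ := hne
  rw [Finset.mem_filter] at hk
  obtain ⟨hkU, hki⟩ := hk
  have hkact : Active h k := (hact k).2 (Or.inl hkU)
  have hkch : ∀ k' ∈ ch, k' ≠ k := by
    rintro k' hk' rfl
    exact hchU _ hk' hkU
  refine ⟨k, U.erase k, ch, cs, Function.update τ k r, ⟨hkact, hv⟩, hN, hnd, ?_, ?_, ?_, ?_, ?_, ?_,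
    ?_, ?_⟩
  · intro k' hk' h'
    exact hchU k' hk' (Finset.mem_of_mem_erase h')
  · rw [hL]
    apply List.map_congr_left
    intro k' hk'
    rw [Function.update_of_ne (hkch k' hk')]
  · intro k'
    constructor
    · rintro ⟨h1, h2⟩
      rcases (hact k').1 h2 with h3 | h3
      · exact Or.inl (Finset.mem_erase.2 ⟨h1, h3⟩)
      · exact Or.inr h3
    · rintro (h1 | h1)
      · rw [Finset.mem_erase] at h1
        exact ⟨h1.1, (hact k').2 (Or.inl h1.2)⟩
      · exact ⟨hkch k' h1, (hact k').2 (Or.inr h1)⟩
  · intro k' hk'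
    exact hU k' (Finset.mem_of_mem_erase hk')
  · intro k' hk'
    exact hch k' hk'
  · intro i'
    have h1 := fib_erase U k hkU a i'
    rw [hu i', hki] at h1
    by_cases hii : i' = i
    · subst hii
      rw [if_pos rfl] at h1
      rw [Function.update_self]
      omega
    · rw [if_neg (Ne.symm hii)] at h1
      rw [Function.update_of_ne hii]
      omega
  · rw [Finset.card_erase_of_mem hkU, hq, Finset.sum_update_of_mem (Finset.mem_univ r)]
    have h1 := Finset.add_sum_erase Finset.univ q (Finset.mem_univ r)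
    rw [← Finset.erase_eq] 
    omega
  · intro φ h1 h2
    have hφk : φ k = r := by
      rw [h1 k (Finset.notMem_erase k U), Function.update_self]
    refine (cost_dep_le hn φ hv hkact).trans (hφ φ ?_ ?_)
    · intro k' hk'
      have hkk : k' ≠ k := by
        rintro rfl
        exact hk' hkU
      rw [h1 k' (fun h' => hk' (Finset.mem_of_mem_erase h')), Function.update_of_ne hkk]
    · intro i'
      have h3 := fib_erase U k hkU φ i'
      rw [h2 i', hφk] at h3
      rw [← h3]
      by_cases hii : i' = r
      · subst hii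
        rw [if_pos rfl, Function.update_self]
        omega
      · rw [if_neg (Ne.symm hii), Function.update_of_ne hii]
        omega

theorem inv_chunk {n cap N : ℕ} (hn : 0 < n) {h : Hist} {a : ℕ → Fin n}
    {u q : Fin n → ℕ} {L₁ L₂ : List (ℕ × Fin n × Fin n)} {p : ℕ × Fin n × Fin n}
    (hI : Inv n cap N h a u q (L₁ ++ p :: L₂)) :
    ∃ k : ℕ, Inv n cap N (Ev.dep k :: h) a u q (L₁ ++ L₂) := by
  obtain ⟨U, ch, cs, τ, hv, hN, hnd, hdisj, hL, hact, hU, hch, hu, hq, hcost⟩ := hI
  obtain ⟨ch1, ch', hch', hL1, hL'⟩ := List.map_eq_append_iff.mp hL.symm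
  obtain ⟨k, ch2, hch2, hk, hL2⟩ := List.map_eq_cons_iff.mp hL'
  subst hch2 hch'
  have hnd' := hnd
  rw [List.nodup_middle, List.nodup_cons] at hnd'
  obtain ⟨hk1, hnd2⟩ := hnd'
  have hmem : ∀ j, j ∈ ch1 ++ k :: ch2 ↔ j = k ∨ j ∈ ch1 ++ ch2 := by
    intro j
    simp only [List.mem_append, List.mem_cons]
    tauto
  have hkact : Active h k := (hact k).mpr (Or.inr ((hmem k).mpr (Or.inl rfl)))
  have hkU : k ∉ U := hdisj k ((hmem k).mpr (Or.inl rfl))
  refine ⟨k, U, ch1 ++ ch2, cs, τ, ⟨hkact, hv⟩, hN, hnd2, ?_, ?_, ?_, ?_, ?_, hu, hq, ?_⟩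
  · intro j hj
    exact hdisj j ((hmem j).mpr (Or.inr hj))
  · rw [List.map_append, hL1, hL2]
  · intro j
    change j ≠ k ∧ Active h j ↔ _
    rw [hact, hmem]
    constructor
    · rintro ⟨h1, h2 | h2 | h2⟩
      · exact Or.inl h2
      · exact absurd h2 h1
      · exact Or.inr h2
    · rintro (h2 | h2)
      · exact ⟨fun e => hkU (e ▸ h2), Or.inl h2⟩
      · exact ⟨fun e => hk1 (e ▸ h2), Or.inr (Or.inr h2)⟩
  · intro j hj
    exact hU j hj
  · intro j hj
    exact hch j ((hmem j).mpr (Or.inr hj))
  · intro φ h1 h2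
    exact (cost_dep_le hn φ hv hkact).trans (hcost φ h1 h2)

theorem inv_arr {n cap N : ℕ} (hn : 0 < n) (hcap : 0 < cap) {h : Hist} {a : ℕ → Fin n}
    {u q : Fin n → ℕ} {L : List (ℕ × Fin n × Fin n)} (hI : Inv n cap N h a u q L) (c : ℕ)
    (r : Fin n) (hc : 1 ≤ c)
    (hfit : c + q r + ((L.filter fun p => decide (p.2.2 = r)).map fun p => p.1).sum ≤ cap)
    (i : Fin n) :
    Inv n cap N (Ev.arr ((c : ℝ) / cap) :: h) (Function.update a (num h) i) u q
      ((c, i, r) :: L) := by
  obtain ⟨U, ch, cs, τ, hval, hN, hnd, hdis, hL, hact, hU, hch, hu, hUq, hcost⟩ := hI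
  have hcapR : (0 : ℝ) < cap := by exact_mod_cast hcap
  have hcR : (0 : ℝ) < c := by exact_mod_cast hc
  obtain ⟨m, hm⟩ : ∃ m, m = num h := ⟨_, rfl⟩
  rw [← hm]
  have hmU : m ∉ U := fun hk => by have := (hU m hk).2.1; omega
  have hmch : m ∉ ch := fun hk => by have := (hch m hk).2.1; omega
  have hneU : ∀ k ∈ U, k ≠ m := fun k hk h0 => hmU (h0 ▸ hk)
  have hnech : ∀ k ∈ ch, k ≠ m := fun k hk h0 => hmch (h0 ▸ hk)
  have hnum : num (Ev.arr ((c : ℝ) / cap) :: h) = m + 1 := by rw [hm]; rfl
  have hwt : ∀ k, wt (Ev.arr ((c : ℝ) / cap) :: h) k = if k = m then (c : ℝ) / cap else wt h k := by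
    intro k; rw [hm]; rfl
  refine ⟨U, m :: ch, Function.update cs m c, Function.update τ m r, ?_, ?_, ?_, ?_, ?_, ?_, ?_, ?_,
    ?_, hUq, ?_⟩
  · exact ⟨by positivity, hval⟩
  · rw [hnum]; omega
  · exact List.nodup_cons.2 ⟨hmch, hnd⟩
  · intro k hk
    rcases List.mem_cons.1 hk with h1 | h1
    · rw [h1]; exact hmU
    · exact hdis k h1
  · rw [List.map_cons, Function.update_self, Function.update_self, Function.update_self, hL]
    congr 1
    apply List.map_congr_left
    intro k hk
    rw [Function.update_of_ne (hnech k hk), Function.update_of_ne (hnech k hk),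
      Function.update_of_ne (hnech k hk)]
  · intro k
    have h1 : Active (Ev.arr ((c : ℝ) / cap) :: h) k ↔ (k = m ∨ Active h k) := by rw [hm]; rfl
    rw [h1, hact, List.mem_cons]
    tauto
  · intro k hk
    obtain ⟨h1, h2, h3⟩ := hU k hk
    refine ⟨h1, by rw [hnum]; omega, ?_⟩
    rw [hwt, if_neg (hneU k hk), h3]
  · intro k hk
    rcases List.mem_cons.1 hk with h1 | h1
    · rw [h1]
      refine ⟨by omega, by rw [hnum]; omega, ?_⟩
      rw [hwt, if_pos rfl, Function.update_self]
    · obtain ⟨h2, h3, h4⟩ := hch k h1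
      refine ⟨h2, by rw [hnum]; omega, ?_⟩
      rw [hwt, if_neg (hnech k h1), h4, Function.update_of_ne (hnech k h1)]
  · intro j
    rw [← hu j]
    congr 1
    apply Finset.filter_congr
    intro k hk
    rw [Function.update_of_ne (hneU k hk)]
  · intro φ hφ hfib
    have hφm : φ m = r := by rw [hφ m hmU, Function.update_self]
    have hφτ : ∀ k, k ∉ U → k ≠ m → φ k = τ k := by
      intro k hk hkm
      rw [hφ k hk, Function.update_of_ne hkm]
    have h0 : cost (Function.update φ m (τ m)) h ≤ 1 := by
      apply hcost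
      · intro k hk
        by_cases hkm : k = m
        · rw [hkm, Function.update_self]
        · rw [Function.update_of_ne hkm, hφτ k hk hkm]
      · intro j
        rw [← hfib j]
        congr 1
        apply Finset.filter_congr
        intro k hk
        rw [Function.update_of_ne (hneU k hk)]
    have h1 : cost φ h ≤ 1 := by
      rw [← cost_congr (a := Function.update φ m (τ m)) (b := φ) (h := h)]
      · exact h0
      · intro k hk
        rw [Function.update_of_ne (by omega)]
    show max (cost φ h) (⨆ j : Fin n, load φ (Ev.arr ((c : ℝ) / cap) :: h) j) ≤ 1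
    apply max_le h1
    haveI : Nonempty (Fin n) := ⟨⟨0, hn⟩⟩
    apply ciSup_le
    intro j
    rw [load_arr φ h (fun k hk => active_lt hval hk) _ j, ← hm, hφm]
    by_cases hj : r = j
    · rw [if_pos hj, ← hj, load_formula hnd hdis hact (fun k hk => (hU k hk).2)
        (fun k hk => (hch k hk).2) r, hfib r]
      have h2 : ((ch.filter fun k => decide (φ k = r)).map cs).sum
          = ((L.filter fun p => decide (p.2.2 = r)).map fun p => p.1).sum := by
        rw [hL, List.filter_map, List.map_map]
        have e1 : ch.filter (fun k => decide (φ k = r))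
            = ch.filter ((fun p : ℕ × Fin n × Fin n => decide (p.2.2 = r)) ∘
              fun k => (cs k, a k, τ k)) := by
          apply List.filter_congr
          intro k hk
          rw [hφτ k (hdis k hk) (hnech k hk)]
          rfl
        rw [e1]
        rfl
      rw [h2, ← add_div, div_le_one hcapR]
      have h3 : ((c + q r + ((L.filter fun p => decide (p.2.2 = r)).map fun p => p.1).sum : ℕ) : ℝ)
          ≤ cap := by exact_mod_cast hfit
      push_cast at h3 ⊢
      linarith
    · rw [if_neg hj, add_zero]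
      exact (load_le_cost φ h j).trans h1

theorem inv_flood_succ (cap m : ℕ) (h : Hist) :
    flood cap (m + 1) h = Ev.arr (1 / cap) :: flood cap m h := by
  unfold flood
  rw [List.replicate_succ, List.cons_append]

theorem inv_flood_zero (cap : ℕ) (h : Hist) : flood cap 0 h = h := by
  unfold flood
  simp

theorem inv_flood_num (cap m : ℕ) (h : Hist) : num (flood cap m h) = num h + m := by
  induction m with
  | zero => rw [inv_flood_zero, add_zero]
  | succ m ih => rw [inv_flood_succ]; show num (flood cap m h) + 1 = _; rw [ih]; ring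

theorem inv_flood_valid (cap m : ℕ) (hcap : 0 < cap) (h : Hist) (hv : Valid h) :
    Valid (flood cap m h) := by
  induction m with
  | zero => rw [inv_flood_zero]; exact hv
  | succ m ih =>
    rw [inv_flood_succ]
    exact ⟨by positivity, ih⟩

theorem inv_flood_active (cap m : ℕ) (h : Hist) (ha : ∀ k, ¬ Active h k) (k : ℕ) :
    Active (flood cap m h) k ↔ num h ≤ k ∧ k < num h + m := by
  induction m with
  | zero =>
    rw [inv_flood_zero]
    constructor
    · intro hk; exact absurd hk (ha k)
    · intro hk; omega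
  | succ m ih =>
    rw [inv_flood_succ]
    show (k = num (flood cap m h) ∨ Active (flood cap m h) k) ↔ _
    rw [ih, inv_flood_num]
    omega

theorem inv_flood_wt (cap m : ℕ) (h : Hist) (k : ℕ) (h1 : num h ≤ k) (h2 : k < num h + m) :
    wt (flood cap m h) k = 1 / cap := by
  induction m with
  | zero => omega
  | succ m ih =>
    rw [inv_flood_succ]
    show (if k = num (flood cap m h) then (1 / cap : ℝ) else wt (flood cap m h) k) = _
    rw [inv_flood_num]
    split_ifs with hk
    · rfl
    · exact ih (by omega)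

theorem inv_flood_load {n : ℕ} (cap m : ℕ) (hcap : 0 < cap) (h : Hist) (hv : Valid h)
    (ha : ∀ k, ¬ Active h k) (φ : ℕ → Fin n) (i : Fin n) :
    load φ (flood cap m h) i =
      (((Finset.Ico (num h) (num h + m)).filter fun k => φ k = i).card : ℝ) / cap := by
  induction m with
  | zero =>
    rw [inv_flood_zero, add_zero, Finset.Ico_self, Finset.filter_empty, Finset.card_empty]
    unfold load
    rw [Nat.cast_zero, zero_div]
    apply Finset.sum_eq_zero
    intro k _
    rw [if_neg]
    exact fun hk => ha k hk.1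
  | succ m ih =>
    rw [inv_flood_succ, load_arr φ (flood cap m h)
      (fun k hk => active_lt (inv_flood_valid cap m hcap h hv) hk), ih, inv_flood_num]
    rw [← add_assoc, ← Finset.insert_Ico_right_eq_Ico_add_one (by omega), Finset.filter_insert]
    split_ifs with hk
    · rw [Finset.card_insert_of_notMem (by simp)]
      push_cast
      ring
    · rw [add_zero]

theorem inv_flood_cost {n : ℕ} (hn : 0 < n) (cap : ℕ) (hcap : 0 < cap) (h : Hist) (hv : Valid h)
    (ha : ∀ k, ¬ Active h k) (φ : ℕ → Fin n) (M : ℕ) (h0 : cost φ h ≤ 1)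
    (hφ : ∀ i, ((Finset.Ico (num h) (num h + M)).filter fun k => φ k = i).card = cap)
    (m : ℕ) (hm : m ≤ M) : cost φ (flood cap m h) ≤ 1 := by
  have hc : (0 : ℝ) < cap := by exact_mod_cast hcap
  have : Nonempty (Fin n) := ⟨⟨0, hn⟩⟩
  induction m with
  | zero => rw [inv_flood_zero]; exact h0
  | succ m ih =>
    have h1 : ∀ i, load φ (flood cap (m + 1) h) i ≤ 1 := by
      intro i
      rw [inv_flood_load cap (m + 1) hcap h hv ha φ i, div_le_one hc]
      have h2 : ((Finset.Ico (num h) (num h + (m + 1))).filter fun k => φ k = i).card ≤ cap := by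
        rw [← hφ i]
        apply Finset.card_le_card
        apply Finset.filter_subset_filter
        apply Finset.Ico_subset_Ico_right
        omega
      exact_mod_cast h2
    have h3 := ih (by omega)
    rw [inv_flood_succ] at h1 ⊢
    exact max_le h3 (ciSup_le h1)

theorem inv_flood {n cap : ℕ} (hn : 0 < n) (hcap : 0 < cap) {h : Hist} (hh : Start n h)
    (a : ℕ → Fin n) :
    Inv n cap (num h) (flood cap (n * cap) h) a
      (fun i => ((Finset.Ico (num h) (num h + n * cap)).filter fun k => a k = i).card)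
      (fun _ => cap) [] := by
  obtain ⟨hv, ha, b0, hb0⟩ := hh
  refine ⟨Finset.Ico (num h) (num h + n * cap), [], fun _ => 0, b0,
    inv_flood_valid cap _ hcap h hv, ?_, List.nodup_nil, ?_, ?_, ?_, ?_, ?_, ?_, ?_, ?_⟩
  · rw [inv_flood_num]; omega
  · intro k hk
    simp at hk
  · simp
  · intro k
    rw [inv_flood_active cap _ h ha k, Finset.mem_Ico]
    simp
  · intro k hk
    rw [Finset.mem_Ico] at hk
    exact ⟨hk.1, by rw [inv_flood_num]; exact hk.2, inv_flood_wt cap _ h k hk.1 hk.2⟩
  · intro k hk
    simp at hk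
  · intro i
    rfl
  · simp
  · intro φ hφ1 hφ2
    apply inv_flood_cost hn cap hcap h hv ha φ (n * cap) _ hφ2 (n * cap) le_rfl
    rw [cost_congr (b := b0)]
    · exact hb0
    · intro k hk
      apply hφ1
      rw [Finset.mem_Ico]
      omega

theorem sound {n cap N T : ℕ} (hn : 0 < n) (hcap : 0 < cap) {d : ℕ} {u q : Fin n → ℕ}
    {L : List (ℕ × Fin n × Fin n)}
    (hg : CG n cap T d u q L) : ∀ (h : Hist) (a : ℕ → Fin n), Inv n cap N h a u q L →
      Good n ((T : ℝ) / cap) N d h a := by
  induction hg with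
  | win i hi =>
    intro h a hI
    exact inv_win hn hcap hI i hi
  | unit i r hi hr _ ih =>
    intro h a hI
    obtain ⟨k, hk⟩ := inv_unit hn hI i r hi hr
    exact Good.dep k (ih _ _ hk)
  | chunk L₁ p L₂ _ ih =>
    intro h a hI
    obtain ⟨k, hk⟩ := inv_chunk hn hI
    exact Good.dep k (ih _ _ hk)
  | arr c r hc hfit _ ih =>
    intro h a hI
    exact Good.arr ((c : ℝ) / cap) fun i => ih i _ _ (inv_arr hn hcap hI c r hc hfit i)

theorem game_good {n cap T d : ℕ} (hn : 0 < n) (hcap : 0 < cap)
    (H : ∀ u : Fin n → ℕ, ∑ i, u i = n * cap → CG n cap T d u (fun _ => cap) []) {h : Hist}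
    (hh : Start n h) (a : ℕ → Fin n) : Good n ((T : ℝ) / cap) (num h) (d + n * cap) h a := by
  refine flood_good (cap := cap) (n * cap) h a fun a' => ?_
  have hsum : ∑ i : Fin n, ((Finset.Ico (num h) (num h + n * cap)).filter fun k => a' k = i).card
      = n * cap := by
    rw [← Finset.card_eq_sum_card_fiberwise (f := a') (t := Finset.univ)
      (fun x _ => Finset.mem_coe.2 (Finset.mem_univ _))]
    simp
  exact sound hn hcap (H _ hsum) _ _ (inv_flood hn hcap hh a')

end H92LB
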