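import Pool.Agent.Helper92.LBDefs

universe u

open MeasureTheory
open scoped ENNReal

namespace H92LB

theorem num_le_cons (e : Ev) (h : Hist) : num h ≤ num (e :: h) := by
  cases e with
  | arr w => simp [num]
  | dep k => simp [num]

theorem cost_congr {n : ℕ} {a b : ℕ → Fin n} {h : Hist} (hab : ∀ k, k < num h → a k = b k) :
    cost a h = cost b h := by
  induction h with
  | nil => rfl
  | cons e h ih =>
    have h1 : cost a h = cost b h := ih fun k hk => hab k (lt_of_lt_of_le hk (num_le_cons e h))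
    have h2 : ∀ i : Fin n, load a (e :: h) i = load b (e :: h) i := by
      intro i
      unfold load
      refine Finset.sum_congr rfl fun k hk => ?_
      rw [hab k (Finset.mem_range.mp hk)]
    simp only [cost, h1, h2]

theorem num_le_of_suffix {h h' : Hist} (hs : h <:+ h') : num h ≤ num h' := by
  obtain ⟨l, rfl⟩ := hs
  induction l with
  | nil => simp
  | cons e l ih => exact ih.trans (num_le_cons e (l ++ h))

theorem run_suffix {n : ℕ} [NeZero n] (A : Hist → Fin n) {h h' : Hist} (hs : h <:+ h') :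
    ∀ k, k < num h → run A h' k = run A h k := by
  obtain ⟨l, rfl⟩ := hs
  intro k hk
  induction l with
  | nil => simp
  | cons e l ih =>
    have h1 : num h ≤ num (l ++ h) := num_le_of_suffix (List.suffix_append l h)
    rw [← ih, List.cons_append]
    cases e with
    | arr w =>
      have h2 : k ≠ num (l ++ h) := by omega
      simp only [run, if_neg h2]
    | dep j => simp only [run]

theorem cost_mono {n : ℕ} (a : ℕ → Fin n) {h h' : Hist} (hs : h <:+ h') : cost a h ≤ cost a h' := by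
  obtain ⟨l, rfl⟩ := hs
  induction l with
  | nil => simp
  | cons e l ih =>
    rw [List.cons_append]
    exact ih.trans (le_max_left _ _)

theorem cost_nonneg {n : ℕ} (a : ℕ → Fin n) (h : Hist) : 0 ≤ cost a h := by
  have h1 := cost_mono a (List.nil_suffix (l := h))
  exact h1

theorem pigeon {n : ℕ} [NeZero n] {T : ℝ} {N d : ℕ} {h : Hist} {a : ℕ → Fin n}
    (hg : Good n T N d h a) {Ω : Type u} [MeasurableSpace Ω] (μ : Measure Ω) (A : Ω → Hist → Fin n)
    (hA : ∀ h, Measurable fun ω => A ω h) :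
    ∀ B : Set Ω, MeasurableSet B → N ≤ num h →
      (∀ ω ∈ B, ∀ k, N ≤ k → k < num h → run (A ω) h k = a k) →
      ∃ (h' : Hist) (B' : Set Ω), Start n h' ∧ h <:+ h' ∧ MeasurableSet B' ∧ B' ⊆ B ∧
        μ B ≤ (n : ℝ≥0∞) ^ d * μ B' ∧ ∀ ω ∈ B', T ≤ cost (run (A ω) h') h' := by
  have hn1 : (1 : ℝ≥0∞) ≤ (n : ℝ≥0∞) := by
    have : 1 ≤ n := Nat.one_le_iff_ne_zero.2 (NeZero.ne n)
    exact_mod_cast this
  induction hg with
  | @fin d h a hs hc =>
    intro B hB hN hrun
    refine ⟨h, B, hs, List.suffix_refl h, hB, subset_rfl, ?_, ?_⟩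
    · calc μ B = 1 * μ B := (one_mul _).symm
        _ ≤ (n : ℝ≥0∞) ^ d * μ B := mul_le_mul' (one_le_pow₀ hn1) le_rfl
    · intro ω hω
      exact hc _ (hrun ω hω)
  | @dep d h a j hg ih =>
    intro B hB hN hrun
    obtain ⟨h', B', h1, h2, h3, h4, h5, h6⟩ := ih B hB hN hrun
    exact ⟨h', B', h1, (List.suffix_cons _ _).trans h2, h3, h4, h5, h6⟩
  | @arr d h a w hg ih =>
    intro B hB hN hrun
    let Bi : Fin n → Set Ω := fun i => B ∩ {ω | A ω (Ev.arr w :: h) = i}
    have hBi : ∀ i, MeasurableSet (Bi i) := fun i =>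
      hB.inter (hA (Ev.arr w :: h) (measurableSet_singleton i))
    have hcov : B ⊆ ⋃ i, Bi i := by
      intro ω hω
      exact Set.mem_iUnion.2 ⟨A ω (Ev.arr w :: h), hω, rfl⟩
    have hsum : μ B ≤ ∑ i, μ (Bi i) := (measure_mono hcov).trans (measure_iUnion_fintype_le μ Bi)
    have hex : ∃ i ∈ (Finset.univ : Finset (Fin n)), μ B ≤ (n : ℝ≥0∞) * μ (Bi i) := by
      refine ENNReal.exists_le_of_sum_le (f := fun _ => μ B)
        (g := fun i => (n : ℝ≥0∞) * μ (Bi i)) ⟨0, Finset.mem_univ _⟩ ?_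
      rw [Finset.sum_const, Finset.card_univ, Fintype.card_fin, nsmul_eq_mul, ← Finset.mul_sum]
      exact mul_le_mul' le_rfl hsum
    obtain ⟨i, -, hi⟩ := hex
    have hr : ∀ ω ∈ Bi i, ∀ k, N ≤ k → k < num (Ev.arr w :: h) →
        run (A ω) (Ev.arr w :: h) k = Function.update a (num h) i k := by
      intro ω hω k hk1 hk2
      have hk3 : k < num h + 1 := hk2
      show (if k = num h then A ω (Ev.arr w :: h) else run (A ω) h k) = _
      by_cases hk : k = num h
      · rw [if_pos hk, hk, Function.update_self]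
        exact hω.2
      · rw [if_neg hk, Function.update_of_ne hk]
        exact hrun ω hω.1 k hk1 (by omega)
    have hN' : N ≤ num (Ev.arr w :: h) := by
      show N ≤ num h + 1
      omega
    obtain ⟨h', B', h1, h2, h3, h4, h5, h6⟩ := ih i (Bi i) (hBi i) hN' hr
    refine ⟨h', B', h1, (List.suffix_cons _ _).trans h2, h3, h4.trans Set.inter_subset_left, ?_,
      h6⟩
    calc μ B ≤ (n : ℝ≥0∞) * μ (Bi i) := hi
      _ ≤ (n : ℝ≥0∞) * ((n : ℝ≥0∞) ^ d * μ B') := mul_le_mul' le_rfl h5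
      _ = (n : ℝ≥0∞) ^ (d + 1) * μ B' := by rw [pow_succ]; ring

theorem iterate {n : ℕ} [NeZero n] {T : ℝ} {d : ℕ}
    (hG : ∀ h, Start n h → Good n T (num h) d h (fun _ => 0)) {Ω : Type u} [MeasurableSpace Ω]
    (μ : Measure Ω) [IsProbabilityMeasure μ] (A : Ω → Hist → Fin n)
    (hA : ∀ h, Measurable fun ω => A ω h) (t : ℕ) :
    ∃ (h : Hist) (W : Set Ω), Start n h ∧ MeasurableSet W ∧
      μ.real Wᶜ ≤ (1 - 1 / (n : ℝ) ^ d) ^ t ∧ ∀ ω ∈ W, T ≤ cost (run (A ω) h) h := by
  have hn : (1 : ℝ) ≤ n := by exact_mod_cast Nat.one_le_iff_ne_zero.2 (NeZero.ne n)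
  have hnd : (1 : ℝ) ≤ (n : ℝ) ^ d := one_le_pow₀ hn
  have hnd0 : (0 : ℝ) < (n : ℝ) ^ d := lt_of_lt_of_le one_pos hnd
  have hq : 0 ≤ 1 - 1 / (n : ℝ) ^ d := by
    rw [sub_nonneg, div_le_one hnd0]; exact hnd
  induction t with
  | zero =>
    refine ⟨[], ∅, ⟨trivial, fun k hk => hk, fun _ => 0, ?_⟩, MeasurableSet.empty, ?_, ?_⟩
    · show (0 : ℝ) ≤ 1
      exact zero_le_one
    · rw [Set.compl_empty, probReal_univ, pow_zero]
    · intro ω hω
      exact absurd hω (Set.notMem_empty ω)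
  | succ t ih =>
    obtain ⟨h, W, hst, hWm, hWr, hWT⟩ := ih
    obtain ⟨h', B', hst', hsuf, hB'm, hB's, hB'μ, hB'T⟩ := pigeon (hG h hst) μ A hA Wᶜ hWm.compl
      le_rfl (fun ω _ k hk hk' => absurd hk' (not_lt.2 hk))
    refine ⟨h', W ∪ B', hst', hWm.union hB'm, ?_, ?_⟩
    · have h1 : (W ∪ B')ᶜ = Wᶜ \ B' := by
        rw [Set.compl_union, Set.diff_eq]
      have h2 : μ.real (Wᶜ \ B') = μ.real Wᶜ - μ.real B' :=
        measureReal_sdiff hB's hB'm
      have h3 : μ.real Wᶜ ≤ (n : ℝ) ^ d * μ.real B' := by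
        have h4 : (μ Wᶜ).toReal ≤ ((n : ℝ≥0∞) ^ d * μ B').toReal :=
          ENNReal.toReal_mono (ENNReal.mul_ne_top (ENNReal.pow_ne_top (ENNReal.natCast_ne_top n))
            (measure_ne_top μ B')) hB'μ
        rw [ENNReal.toReal_mul, ENNReal.toReal_pow, ENNReal.toReal_natCast] at h4
        exact h4
      have h5 : 1 / (n : ℝ) ^ d * μ.real Wᶜ ≤ μ.real B' := by
        rw [one_div, inv_mul_le_iff₀ hnd0]
        exact h3
      rw [h1, h2, pow_succ]
      calc μ.real Wᶜ - μ.real B' ≤ μ.real Wᶜ * (1 - 1 / (n : ℝ) ^ d) := by linarith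
        _ ≤ (1 - 1 / (n : ℝ) ^ d) ^ t * (1 - 1 / (n : ℝ) ^ d) :=
          mul_le_mul_of_nonneg_right hWr hq
    · rintro ω (hω | hω)
      · refine (hWT ω hω).trans ?_
        rw [cost_congr fun k hk => (run_suffix (A ω) hsuf k hk).symm]
        exact cost_mono _ hsuf
      · exact hB'T ω hω

theorem reset {n : ℕ} [NeZero n] {T : ℝ} (hT : 0 < T) {d : ℕ}
    (hG : ∀ h, Start n h → Good n T (num h) d h (fun _ => 0)) (R : RandAlg.{u} n) (c : ℝ)
    (hc : R.Competitive c) : T ≤ c := by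
  let _ := R.mΩ
  have := R.prob
  have hn : (0 : ℝ) < n := by exact_mod_cast Nat.pos_of_ne_zero (NeZero.ne n)
  have hn1 : (1 : ℝ) ≤ n := by exact_mod_cast Nat.pos_of_ne_zero (NeZero.ne n)
  have hnd : (1 : ℝ) ≤ (n : ℝ) ^ d := one_le_pow₀ hn1
  set q : ℝ := 1 - 1 / (n : ℝ) ^ d with hq
  have hq0 : 0 ≤ q := by
    rw [hq, sub_nonneg, div_le_one (by positivity)]; exact hnd
  have hq1 : q < 1 := by
    rw [hq]
    have : 0 < 1 / (n : ℝ) ^ d := by positivity
    linarith
  have key : ∀ t : ℕ, T * (1 - q ^ t) ≤ 0 ∨ T * (1 - q ^ t) ≤ c := by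
    intro t
    obtain ⟨h, W, hS, hW, hμ, hTW⟩ := iterate hG R.μ R.A R.meas t
    obtain ⟨hV, -, b, hb⟩ := hS
    have hbdd : BddBelow (Set.range fun a : ℕ → Fin n => cost a h) :=
      ⟨0, by rintro _ ⟨a, rfl⟩; exact cost_nonneg a h⟩
    have hopt1 : opt n h ≤ 1 := (ciInf_le hbdd b).trans hb
    have hopt0 : 0 ≤ opt n h := le_ciInf fun a => cost_nonneg a h
    have h1 := hc h hV
    have h2 : ENNReal.ofReal T * R.μ W ≤ ∫⁻ ω, ENNReal.ofReal (cost (run (R.A ω) h) h) ∂(R.μ) := by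
      rw [← lintegral_indicator_const hW]
      apply lintegral_mono
      intro ω
      by_cases hω : ω ∈ W
      · simp only [Set.indicator_of_mem hω]
        exact ENNReal.ofReal_le_ofReal (hTW ω hω)
      · simp only [Set.indicator_of_notMem hω]
        exact zero_le
    have h3 : R.μ W = ENNReal.ofReal (R.μ.real W) := by
      rw [Measure.real, ENNReal.ofReal_toReal (measure_ne_top _ _)]
    have h4 : ENNReal.ofReal (T * R.μ.real W) ≤ ENNReal.ofReal (c * opt n h) := by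
      rw [ENNReal.ofReal_mul hT.le, ← h3]
      exact h2.trans h1
    have h5 : R.μ.real W = 1 - R.μ.real Wᶜ := by
      have := probReal_compl_eq_one_sub (μ := R.μ) hW
      linarith
    have h6 : 1 - q ^ t ≤ R.μ.real W := by rw [h5]; linarith
    have h7 : T * (1 - q ^ t) ≤ T * R.μ.real W := mul_le_mul_of_nonneg_left h6 hT.le
    rcases ENNReal.ofReal_le_ofReal_iff'.1 h4 with h8 | h8
    · rcases le_or_gt c 0 with hc0 | hc0
      · left
        have : c * opt n h ≤ 0 := mul_nonpos_of_nonpos_of_nonneg hc0 hopt0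
        linarith
      · right
        have : c * opt n h ≤ c * 1 := mul_le_mul_of_nonneg_left hopt1 hc0.le
        linarith
    · left; linarith
  have hlim : Filter.Tendsto (fun t : ℕ => T * (1 - q ^ t)) Filter.atTop (nhds (T * (1 - 0))) :=
    ((tendsto_pow_atTop_nhds_zero_of_lt_one hq0 hq1).const_sub 1).const_mul T
  rw [sub_zero, mul_one] at hlim
  have hev : ∀ᶠ t : ℕ in Filter.atTop, 0 < T * (1 - q ^ t) := hlim.eventually (lt_mem_nhds hT)
  refine le_of_tendsto hlim ?_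
  filter_upwards [hev] with t ht
  rcases key t with h | h
  · linarith
  · exact h

end H92LB
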